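import Mathlib

set_option autoImplicit false

/-!
# Automatic sets which are not sparse contain cubes

The functions `run` and `pad` and their first properties are those of `Pool/Agent/W93/AU3.lean` and
`Pool/Agent/W93/AU10.lean` (starting files).
-/

namespace Pool.Agent.D0H92.AG

open Finset

variable {σ : Type}

/-- the state reached from `s` after reading the `m` lowest digits of `v` -/
def run (b : ℕ) (δ : σ → ℕ → σ) : ℕ → σ → ℕ → σ
  | 0, s, _ => s
  | m + 1, s, v => run b δ m (δ s (v % b)) (v / b)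

lemma run_zero (b : ℕ) (δ : σ → ℕ → σ) (s : σ) (v : ℕ) : run b δ 0 s v = s := rfl

lemma run_succ (b : ℕ) (δ : σ → ℕ → σ) (m : ℕ) (s : σ) (v : ℕ) :
    run b δ (m + 1) s v = run b δ m (δ s (v % b)) (v / b) := rfl

lemma run_split (b : ℕ) (δ : σ → ℕ → σ) (m m' : ℕ) : ∀ (s : σ) (w : ℕ),
    run b δ (m + m') s w = run b δ m' (run b δ m s w) (w / b ^ m) := by
  induction m with
  | zero => intro s w; simp [run_zero]
  | succ m ih =>
    intro s w
    rw [show m + 1 + m' = (m + m') + 1 by omega, run_succ, run_succ, ih, Nat.div_div_eq_div_mul, pow_succ']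

lemma run_mod (b : ℕ) (δ : σ → ℕ → σ) (m : ℕ) : ∀ (s : σ) (w : ℕ), run b δ m s (w % b ^ m) = run b δ m s w := by
  induction m with
  | zero => intro s w; rfl
  | succ m ih =>
    intro s w
    rw [run_succ, run_succ]
    have h1 : w % b ^ (m + 1) % b = w % b := by
      rw [pow_succ', Nat.mod_mul_right_mod]
    have h2 : w % b ^ (m + 1) / b = (w / b) % b ^ m := by
      rw [pow_succ', Nat.mod_mul_right_div_self]
    rw [h1, h2, ih]

lemma run_concat (b : ℕ) (hb : 1 ≤ b) (δ : σ → ℕ → σ) (m m' : ℕ) (s : σ) (v v' : ℕ) (hv : v < b ^ m) :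
    run b δ (m + m') s (v + b ^ m * v') = run b δ m' (run b δ m s v) v' := by
  rw [run_split]
  have h1 : (v + b ^ m * v') / b ^ m = v' := by
    rw [Nat.add_mul_div_left _ _ (by positivity), Nat.div_eq_of_lt hv, zero_add]
  have h2 : run b δ m s (v + b ^ m * v') = run b δ m s v := by
    rw [← run_mod b δ m s (v + b ^ m * v'), Nat.add_mul_mod_self_left, Nat.mod_eq_of_lt hv]
  rw [h1, h2]

/-- pairs of states: the second component is the state after the last nonzero digit -/
def pad (δ : σ → ℕ → σ) (s : σ × σ) (x : ℕ) : σ × σ := (δ s.1 x, if x = 0 then s.2 else δ s.1 x)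

lemma pad_run (b : ℕ) (hb : 2 ≤ b) (M : DFA ℕ σ) (m : ℕ) : ∀ (s : σ × σ) (v : ℕ), v < b ^ m →
    (run b (pad M.step) m s v).2 = if v = 0 then s.2 else M.evalFrom s.1 (Nat.digits b v) := by
  induction m with
  | zero =>
    intro s v hv
    rw [pow_zero] at hv
    rw [run_zero, if_pos (by omega)]
  | succ m ih =>
    intro s v hv
    have h1 : v / b < b ^ m := by
      rw [pow_succ'] at hv
      exact Nat.div_lt_of_lt_mul hv
    rw [run_succ, ih _ _ h1]
    by_cases h0 : v = 0
    · subst h0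
      simp [pad]
    · rw [if_neg h0, Nat.digits_def' (by omega) (Nat.pos_of_ne_zero h0), DFA.evalFrom_cons]
      by_cases h2 : v / b = 0
      · rw [if_pos h2, h2, Nat.digits_zero, DFA.evalFrom_nil]
        have h3 : v % b ≠ 0 := by
          intro h3
          have := Nat.mod_add_div v b
          rw [h2, h3] at this
          omega
        unfold pad
        rw [if_neg h3]
      · rw [if_neg h2]
        rfl

/-- membership in the automatic set, in terms of the padded automaton -/
lemma pad_accepts (b : ℕ) (hb : 2 ≤ b) (M : DFA ℕ σ) (m v : ℕ) (hv : v < b ^ m) :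
    (run b (pad M.step) m (M.start, M.start) v).2 ∈ M.accept ↔ Nat.digits b v ∈ M.accepts := by
  rw [pad_run b hb M m _ v hv]
  split_ifs with h
  · subst h
    rw [Nat.digits_zero]
    rfl
  · rfl

/-- two different loops of the same length -/
def BR (b : ℕ) (δ : σ → ℕ → σ) (s : σ) : Prop :=
  ∃ l u v, u < v ∧ v < b ^ l ∧ run b δ l s u = s ∧ run b δ l s v = s

open Classical in
/-- **The dichotomy.** If more than a polynomial number of words of length `m` are accepted then there is a state with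
two different loops of the same length on an accepted path. -/
theorem exists_BR [Fintype σ] (b : ℕ) (hb : 2 ≤ b) (δ : σ → ℕ → σ) (G : σ → Prop) (s0 : σ) (m : ℕ)
    (h : ((m + 1) * b) ^ Fintype.card σ < ((range (b ^ m)).filter fun v => G (run b δ m s0 v)).card) :
    ∃ s m1 w1 m2 w2, BR b δ s ∧ w1 < b ^ m1 ∧ run b δ m1 s0 w1 = s ∧ w2 < b ^ m2 ∧ G (run b δ m2 s w2) := by
  set τ : ℕ → σ → ℕ := fun v s => Nat.findGreatest (fun i => run b δ i s0 v = s) m with hτ
  set f : ℕ → (σ → ℕ × ℕ) := fun v s => (τ v s, v / b ^ τ v s % b) with hf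
  have hmaps : ∀ v ∈ (range (b ^ m)).filter (fun v => G (run b δ m s0 v)),
      f v ∈ Fintype.piFinset fun _ : σ => range (m + 1) ×ˢ range b := by
    intro v _
    rw [Fintype.mem_piFinset]
    intro s
    rw [mem_product, mem_range, mem_range]
    exact ⟨Nat.lt_succ_of_le (Nat.findGreatest_le m), Nat.mod_lt _ (by omega)⟩
  have hcard : (Fintype.piFinset fun _ : σ => range (m + 1) ×ˢ range b).card <
      ((range (b ^ m)).filter fun v => G (run b δ m s0 v)).card := by
    rw [Fintype.card_piFinset, prod_const, card_product, card_range, card_range, card_univ]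
    exact h
  obtain ⟨v, hv, v', hv', hne, heq⟩ := exists_ne_map_eq_of_card_lt_of_maps_to hcard hmaps
  rw [mem_filter, mem_range] at hv hv'
  -- the first difference
  have hex : ∃ i, v / b ^ i % b ≠ v' / b ^ i % b := by
    by_contra hcon
    push Not at hcon
    have hmod : ∀ i, v % b ^ i = v' % b ^ i := by
      intro i
      induction i with
      | zero => simp [Nat.mod_one]
      | succ i ih => rw [Nat.mod_pow_succ, Nat.mod_pow_succ, ih, hcon i]
    have := hmod m
    rw [Nat.mod_eq_of_lt hv.1, Nat.mod_eq_of_lt hv'.1] at this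
    exact hne this
  obtain ⟨i, hi, hmin⟩ : ∃ i, v / b ^ i % b ≠ v' / b ^ i % b ∧ ∀ j < i, v / b ^ j % b = v' / b ^ j % b :=
    ⟨Nat.find hex, Nat.find_spec hex, fun j hj => not_not.1 (Nat.find_min hex hj)⟩
  have hmod : ∀ j ≤ i, v % b ^ j = v' % b ^ j := by
    intro j
    induction j with
    | zero => intro _; simp [Nat.mod_one]
    | succ j ih => intro hj; rw [Nat.mod_pow_succ, Nat.mod_pow_succ, ih (by omega), hmin j (by omega)]
  have him : i < m := by
    by_contra hcon
    rw [not_lt] at hcon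
    apply hi
    have h1 : b ^ m ≤ b ^ i := Nat.pow_le_pow_right (by omega) hcon
    rw [Nat.div_eq_of_lt (by omega), Nat.div_eq_of_lt (by omega)]
  set s := run b δ i s0 v with hs
  have hs' : run b δ i s0 v' = s := by
    rw [hs, ← run_mod b δ i s0 v, ← run_mod b δ i s0 v', hmod i le_rfl]
  have hfs := congrFun heq s
  rw [hf] at hfs
  simp only [Prod.mk.injEq] at hfs
  obtain ⟨ht, hdig⟩ := hfs
  have hP : run b δ i s0 v = s := rfl
  have ht1 : i ≤ τ v s := Nat.le_findGreatest him.le hP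
  have ht2 : run b δ (τ v s) s0 v = s := Nat.findGreatest_spec (P := fun i => run b δ i s0 v = s) him.le hP
  have ht3 : run b δ (τ v' s) s0 v' = s :=
    Nat.findGreatest_spec (P := fun i => run b δ i s0 v' = s) him.le hs'
  have htm : τ v s ≤ m := Nat.findGreatest_le m
  rw [← ht] at ht3 hdig
  set t := τ v s with htt
  have hit : i < t := by
    rcases ht1.lt_or_eq with h1 | h1
    · exact h1
    · exfalso
      apply hi
      rw [h1]
      exact hdig
  obtain ⟨l, hl⟩ := Nat.exists_eq_add_of_lt hit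
  -- the two loops
  have loop : ∀ x, run b δ i s0 x = s → run b δ t s0 x = s → run b δ (l + 1) s (x / b ^ i % b ^ (l + 1)) = s := by
    intro x h1 h2
    rw [run_mod, ← h1, ← run_split, ← add_assoc, ← hl, h2, h1]
  have l1 := loop v hP ht2
  have l2 := loop v' hs' ht3
  have hdiff : v / b ^ i % b ^ (l + 1) ≠ v' / b ^ i % b ^ (l + 1) := by
    intro h1
    apply hi
    have h2 := congrArg (· % b) h1
    simp only [pow_succ', Nat.mod_mul_right_mod] at h2
    exact h2
  refine ⟨s, i, v % b ^ i, m - i, v / b ^ i % b ^ (m - i), ?_, Nat.mod_lt _ (by positivity), ?_,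
    Nat.mod_lt _ (by positivity), ?_⟩
  · have hlt : ∀ x, x / b ^ i % b ^ (l + 1) < b ^ (l + 1) := fun x => Nat.mod_lt _ (by positivity)
    rcases lt_or_gt_of_ne hdiff with h1 | h1
    · exact ⟨l + 1, _, _, h1, hlt _, l1, l2⟩
    · exact ⟨l + 1, _, _, h1, hlt _, l2, l1⟩
  · rw [run_mod]
  · rw [run_mod, hs, ← run_split]
    have : i + (m - i) = m := by omega
    rw [this]
    exact hv.2

/-- the words of the cube -/
lemma run_cube (b : ℕ) (hb : 1 ≤ b) (δ : σ → ℕ → σ) (s : σ) (l u v : ℕ) (huv : u < v) (hv : v < b ^ l)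
    (h1 : run b δ l s u = s) (h2 : run b δ l s v = s) (N : ℕ) (E : Finset ℕ) :
    u * (∑ j ∈ range N, (b ^ l) ^ j) + (v - u) * (∑ j ∈ E ∩ range N, (b ^ l) ^ j) < (b ^ l) ^ N ∧
    run b δ (l * N) s (u * (∑ j ∈ range N, (b ^ l) ^ j) + (v - u) * (∑ j ∈ E ∩ range N, (b ^ l) ^ j)) = s := by
  classical
  induction N with
  | zero => simp [run_zero]
  | succ N ih =>
    obtain ⟨i1, i2⟩ := ih
    set X := u * (∑ j ∈ range N, (b ^ l) ^ j) + (v - u) * (∑ j ∈ E ∩ range N, (b ^ l) ^ j) with hX
    have hcase : ∃ x, x < b ^ l ∧ run b δ l s x = s ∧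
        u * (∑ j ∈ range (N + 1), (b ^ l) ^ j) + (v - u) * (∑ j ∈ E ∩ range (N + 1), (b ^ l) ^ j) =
          X + (b ^ l) ^ N * x := by
      by_cases hN : N ∈ E
      · refine ⟨v, hv, h2, ?_⟩
        have e1 : E ∩ range (N + 1) = insert N (E ∩ range N) := by
          ext j
          simp only [mem_inter, mem_range, mem_insert]
          constructor
          · rintro ⟨a1, a2⟩
            rcases eq_or_ne j N with rfl | hjN
            · exact Or.inl rfl
            · exact Or.inr ⟨a1, by omega⟩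
          · rintro (rfl | ⟨a1, a2⟩)
            · exact ⟨hN, by omega⟩
            · exact ⟨a1, by omega⟩
        rw [e1, sum_insert (by simp), sum_range_succ, hX]
        obtain ⟨d, rfl⟩ := Nat.exists_eq_add_of_lt huv
        have : u + d + 1 - u = d + 1 := by omega
        rw [this]
        ring
      · refine ⟨u, huv.trans hv, h1, ?_⟩
        have e1 : E ∩ range (N + 1) = E ∩ range N := by
          ext j
          simp only [mem_inter, mem_range]
          constructor
          · rintro ⟨a1, a2⟩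
            refine ⟨a1, ?_⟩
            rcases eq_or_ne j N with rfl | hjN
            · exact absurd a1 hN
            · omega
          · rintro ⟨a1, a2⟩
            exact ⟨a1, by omega⟩
        rw [e1, sum_range_succ, hX]
        ring
    obtain ⟨x, hx, hx2, hx3⟩ := hcase
    rw [hx3]
    constructor
    · rw [pow_succ]
      calc X + (b ^ l) ^ N * x < (b ^ l) ^ N + (b ^ l) ^ N * x := by omega
        _ = (b ^ l) ^ N * (x + 1) := by ring
        _ ≤ (b ^ l) ^ N * b ^ l := Nat.mul_le_mul_left _ hx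
    · rw [Nat.mul_succ, ← pow_mul, run_concat b hb δ (l * N) l s X x (by rw [pow_mul]; exact i1), i2, hx2]

/-- **Automatic sets which are not sparse contain cubes.** -/
theorem aut_cube [Fintype σ] (b : ℕ) (hb : 2 ≤ b) (M : DFA ℕ σ) (m : ℕ)
    (h : ((m + 1) * b) ^ Fintype.card (σ × σ) < {v : ℕ | v < b ^ m ∧ Nat.digits b v ∈ M.accepts}.ncard) :
    ∃ l D m1 m2, 1 ≤ l ∧ 1 ≤ D ∧ (∀ p, p.Prime → p ∣ b → p ∣ D) ∧ ∀ N : ℕ, ∃ a : ℕ, ∀ E ⊆ range N,
      a + D * (∑ j ∈ E, (b ^ l) ^ j) < b ^ (m1 + l * N + m2) ∧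
      Nat.digits b (a + D * (∑ j ∈ E, (b ^ l) ^ j)) ∈ M.accepts := by
  classical
  have e1 : {v : ℕ | v < b ^ m ∧ Nat.digits b v ∈ M.accepts} =
      (((range (b ^ m)).filter fun v =>
        (run b (pad M.step) m (M.start, M.start) v).2 ∈ M.accept : Finset ℕ) : Set ℕ) := by
    ext v
    rw [Set.mem_ofPred_eq, mem_coe, mem_filter, mem_range]
    constructor
    · rintro ⟨h1, h2⟩
      exact ⟨h1, (pad_accepts b hb M m v h1).2 h2⟩
    · rintro ⟨h1, h2⟩
      exact ⟨h1, (pad_accepts b hb M m v h1).1 h2⟩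
  rw [e1, Set.ncard_coe_finset] at h
  obtain ⟨s, n1, w1, m2, w2, ⟨l, u, v, huv, hv, h1, h2⟩, hw1, hr1, hw2, hG⟩ :=
    exists_BR b hb (pad M.step) (fun s => s.2 ∈ M.accept) (M.start, M.start) m h
  have hl : 1 ≤ l := by
    rcases Nat.eq_zero_or_pos l with h0 | h0
    · rw [h0, pow_zero] at hv; omega
    · exact h0
  have hb1 : 1 ≤ b := by omega
  -- one more loop, to have at least one digit before the cube
  have hw1' : w1 + b ^ n1 * u < b ^ (n1 + l) := by
    rw [pow_add]
    calc w1 + b ^ n1 * u < b ^ n1 + b ^ n1 * u := by omega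
      _ = b ^ n1 * (u + 1) := by ring
      _ ≤ b ^ n1 * b ^ l := Nat.mul_le_mul_left _ (by omega)
  have hr1' : run b (pad M.step) (n1 + l) (M.start, M.start) (w1 + b ^ n1 * u) = s := by
    rw [run_concat b hb1 _ n1 l _ w1 u hw1, hr1, h1]
  refine ⟨l, (v - u) * b ^ (n1 + l), n1 + l, m2, hl, ?_, ?_, ?_⟩
  · exact Nat.mul_pos (by omega) (by positivity)
  · intro p _ hp2
    exact (dvd_pow hp2 (by omega)).mul_left _
  · intro N
    refine ⟨(w1 + b ^ n1 * u) + b ^ (n1 + l) * (u * (∑ j ∈ range N, (b ^ l) ^ j)) +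
      b ^ (n1 + l + l * N) * w2, ?_⟩
    intro E hE
    obtain ⟨c1, c2⟩ := run_cube b hb1 (pad M.step) s l u v huv hv h1 h2 N E
    rw [inter_eq_left.2 hE] at c1 c2
    set Y := u * (∑ j ∈ range N, (b ^ l) ^ j) + (v - u) * (∑ j ∈ E, (b ^ l) ^ j) with hY
    set W := w1 + b ^ n1 * u with hW
    have e2 : W + b ^ (n1 + l) * (u * (∑ j ∈ range N, (b ^ l) ^ j)) + b ^ (n1 + l + l * N) * w2 +
        (v - u) * b ^ (n1 + l) * (∑ j ∈ E, (b ^ l) ^ j) =
        (W + b ^ (n1 + l) * Y) + b ^ (n1 + l + l * N) * w2 := by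
      rw [hY]; ring
    rw [e2]
    rw [← pow_mul] at c1
    have c3 : W + b ^ (n1 + l) * Y < b ^ (n1 + l + l * N) := by
      rw [pow_add b (n1 + l)]
      calc W + b ^ (n1 + l) * Y < b ^ (n1 + l) + b ^ (n1 + l) * Y := by omega
        _ = b ^ (n1 + l) * (Y + 1) := by ring
        _ ≤ b ^ (n1 + l) * b ^ (l * N) := Nat.mul_le_mul_left _ c1
    have c4 : (W + b ^ (n1 + l) * Y) + b ^ (n1 + l + l * N) * w2 < b ^ (n1 + l + l * N + m2) := by
      rw [pow_add b (n1 + l + l * N)]
      calc (W + b ^ (n1 + l) * Y) + b ^ (n1 + l + l * N) * w2 <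
          b ^ (n1 + l + l * N) + b ^ (n1 + l + l * N) * w2 := by omega
        _ = b ^ (n1 + l + l * N) * (w2 + 1) := by ring
        _ ≤ b ^ (n1 + l + l * N) * b ^ m2 := Nat.mul_le_mul_left _ hw2
    refine ⟨c4, ?_⟩
    rw [← pad_accepts b hb M _ _ c4]
    rw [run_concat b hb1 _ (n1 + l + l * N) m2 _ _ w2 c3, run_concat b hb1 _ (n1 + l) (l * N) _ W Y hw1',
      hr1', c2]
    exact hG

end Pool.Agent.D0H92.AG
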