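import Pool.Agent.D0H92.AG.Itin

set_option autoImplicit false

/-!
# The average over random moduli
-/

namespace Pool.Agent.D0H92.AG

open Finset

/-- a fixed modulus `P0` and `R` blocks of `M` primes -/
structure Fam (B D P0 z R M : ℕ) (p : Fin R → Fin M → ℕ) : Prop where
  pos : 0 < P0
  cB : Nat.Coprime B P0
  cD : Nat.Coprime D P0
  pr : ∀ r i, (p r i).Prime
  inj : ∀ r i r' i', p r i = p r' i' → r = r' ∧ i = i'
  le : ∀ r i, p r i ≤ z
  c0 : ∀ r i, ¬ p r i ∣ P0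
  pB : ∀ r i, ¬ p r i ∣ B
  pD : ∀ r i, ¬ p r i ∣ D

/-- the modulus of a choice of one prime from each block -/
def Pm (P0 : ℕ) {R M : ℕ} (p : Fin R → Fin M → ℕ) (ω : Fin R → Fin M) : ℕ := P0 * ∏ r, p r (ω r)

/-- grouping by the denominators -/
lemma denoms (P : ℕ) (hP : 0 < P) (g : ℝ → ℝ) (hg : ∀ x, 0 ≤ g x) :
    ∑ h ∈ Ico 1 P, g ((h : ℝ) / P) ≤ ∑ q ∈ P.divisors.erase 1, ∑ a ∈ AA q, g ((a : ℝ) / q) := by
  set φ : ℕ → (Σ _ : ℕ, ℕ) := fun h => ⟨P / Nat.gcd h P, h / Nat.gcd h P⟩ with hφ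
  set T : Finset (Σ _ : ℕ, ℕ) := (P.divisors.erase 1).sigma fun q => AA q with hT
  have hd : ∀ h, 0 < Nat.gcd h P := fun h => Nat.gcd_pos_of_pos_right _ hP
  have e1 : ∀ h, P / Nat.gcd h P * Nat.gcd h P = P := fun h => Nat.div_mul_cancel (Nat.gcd_dvd_right _ _)
  have e2 : ∀ h, h / Nat.gcd h P * Nat.gcd h P = h := fun h => Nat.div_mul_cancel (Nat.gcd_dvd_left _ _)
  have hinj : Set.InjOn φ (Ico 1 P : Finset ℕ) := by
    intro h _ h' _ heq
    rw [hφ] at heq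
    simp only [Sigma.mk.injEq, heq_eq_eq] at heq
    obtain ⟨h1, h2⟩ := heq
    have h3 : Nat.gcd h P = Nat.gcd h' P := by
      have a1 := e1 h
      have a2 := e1 h'
      rw [← h1] at a2
      have h4 : 0 < P / Nat.gcd h P := by
        rcases Nat.eq_zero_or_pos (P / Nat.gcd h P) with h0 | h0
        · rw [h0, zero_mul] at a1; omega
        · exact h0
      exact Nat.eq_of_mul_eq_mul_left h4 (a1.trans a2.symm)
    rw [← e2 h, ← e2 h', h2, h3]
  have hmem : ∀ h ∈ Ico 1 P, φ h ∈ T := by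
    intro h hh
    rw [mem_Ico] at hh
    rw [hT, mem_sigma, mem_erase, Nat.mem_divisors, mem_AA]
    have h1 := e1 h
    have h2 := e2 h
    have h3 := hd h
    refine ⟨⟨?_, ⟨_, h1.symm⟩, hP.ne'⟩, ?_, Nat.coprime_div_gcd_div_gcd h3⟩
    · intro h0
      change P / Nat.gcd h P = 1 at h0
      rw [h0, one_mul] at h1
      have := Nat.le_of_dvd (by omega) (Nat.gcd_dvd_left h P)
      omega
    · change h / Nat.gcd h P < P / Nat.gcd h P
      by_contra hcon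
      rw [not_lt] at hcon
      have := Nat.mul_le_mul_right (Nat.gcd h P) hcon
      omega
  have hval : ∀ h ∈ Ico 1 P, g ((h : ℝ) / P) = g (((φ h).2 : ℝ) / (φ h).1) := by
    intro h _
    congr 1
    change (h : ℝ) / P = ((h / Nat.gcd h P : ℕ) : ℝ) / ((P / Nat.gcd h P : ℕ) : ℝ)
    have h3 : (0 : ℝ) < Nat.gcd h P := by exact_mod_cast hd h
    have h1 : ((P / Nat.gcd h P : ℕ) : ℝ) * Nat.gcd h P = P := by exact_mod_cast e1 h
    have h2 : ((h / Nat.gcd h P : ℕ) : ℝ) * Nat.gcd h P = h := by exact_mod_cast e2 h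
    rw [← h1, ← h2, mul_div_mul_right _ _ h3.ne']
  calc ∑ h ∈ Ico 1 P, g ((h : ℝ) / P) = ∑ h ∈ Ico 1 P, g (((φ h).2 : ℝ) / (φ h).1) :=
        sum_congr rfl hval
    _ = ∑ t ∈ (Ico 1 P).image φ, g ((t.2 : ℝ) / t.1) := by rw [sum_image hinj]
    _ ≤ ∑ t ∈ T, g ((t.2 : ℝ) / t.1) := by
        refine sum_le_sum_of_subset_of_nonneg ?_ fun _ _ _ => hg _
        intro t ht
        obtain ⟨h, hh, rfl⟩ := mem_image.1 ht
        exact hmem h hh
    _ = _ := by rw [hT, sum_sigma]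

section

variable {B D P0 z R M : ℕ} {p : Fin R → Fin M → ℕ}

open Classical in
/-- the blocks which contain a prime divisor of `q` -/
noncomputable def Tb (p : Fin R → Fin M → ℕ) (q : ℕ) : Finset (Fin R) :=
  univ.filter fun r => ∃ i, p r i ∣ q

lemma mem_Tb {q : ℕ} {r : Fin R} : r ∈ Tb p q ↔ ∃ i, p r i ∣ q := by
  classical
  unfold Tb
  rw [mem_filter]
  simp

lemma Tb_card (q : ℕ) : (Tb p q).card ≤ R := by
  have := card_le_univ (Tb p q)
  rwa [Fintype.card_fin] at this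

lemma Pm_pos (F : Fam B D P0 z R M p) (ω : Fin R → Fin M) : 0 < Pm P0 p ω :=
  Nat.mul_pos F.pos (prod_pos fun r _ => (F.pr r _).pos)

lemma idx (F : Fam B D P0 z R M p) {ω : Fin R → Fin M} {q : ℕ} (hq : q ∣ Pm P0 p ω) {r : Fin R}
    {i : Fin M} (h : p r i ∣ q) : i = ω r := by
  have h1 : p r i ∣ Pm P0 p ω := h.trans hq
  unfold Pm at h1
  rcases (F.pr r i).dvd_mul.1 h1 with h2 | h2
  · exact absurd h2 (F.c0 r i)
  · obtain ⟨r', -, h3⟩ := ((F.pr r i).prime.dvd_finsetProd_iff _).1 h2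
    have h4 := (Nat.prime_dvd_prime_iff_eq (F.pr r i) (F.pr r' _)).1 h3
    obtain ⟨h5, h6⟩ := F.inj _ _ _ _ h4
    rw [h6, h5]

lemma cop_Pm (F : Fam B D P0 z R M p) (ω : Fin R → Fin M) {c : ℕ} (hc : Nat.Coprime c P0)
    (hp : ∀ r i, ¬ p r i ∣ c) : Nat.Coprime c (Pm P0 p ω) := by
  unfold Pm
  refine Nat.Coprime.mul_right hc ?_
  refine Nat.Coprime.prod_right fun r _ => ?_
  exact ((F.pr r _).coprime_iff_not_dvd.2 (hp r _)).symm

lemma q_le (F : Fam B D P0 z R M p) {ω : Fin R → Fin M} {q : ℕ} (hq : q ∣ Pm P0 p ω) :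
    q ≤ P0 * z ^ (Tb p q).card := by
  classical
  have h1 : Pm P0 p ω = (P0 * ∏ r ∈ Tb p q, p r (ω r)) * ∏ r ∈ (Tb p q)ᶜ, p r (ω r) := by
    unfold Pm
    rw [mul_assoc, prod_mul_prod_compl]
  have h2 : Nat.Coprime q (∏ r ∈ (Tb p q)ᶜ, p r (ω r)) := by
    refine Nat.Coprime.prod_right fun r hr => ?_
    rw [mem_compl, mem_Tb] at hr
    exact ((F.pr r _).coprime_iff_not_dvd.2 fun h => hr ⟨_, h⟩).symm
  rw [h1] at hq
  have h3 := h2.dvd_of_dvd_mul_right hq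
  have h4 : 0 < P0 * ∏ r ∈ Tb p q, p r (ω r) :=
    Nat.mul_pos F.pos (prod_pos fun r _ => (F.pr r _).pos)
  refine (Nat.le_of_dvd h4 h3).trans (Nat.mul_le_mul_left _ ?_)
  exact prod_le_pow_card _ _ _ fun r _ => F.le r _

open Classical in
lemma count_le (F : Fam B D P0 z R M p) {ω : Fin R → Fin M} {q : ℕ} (hq : q ∣ Pm P0 p ω) :
    (univ.filter fun ω' : Fin R → Fin M => q ∣ Pm P0 p ω').card ≤ M ^ (R - (Tb p q).card) := by
  have h1 : (univ.filter fun ω' : Fin R → Fin M => q ∣ Pm P0 p ω') ⊆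
      Fintype.piFinset fun r => if r ∈ Tb p q then {ω r} else univ := by
    intro ω' h
    rw [mem_filter] at h
    rw [Fintype.mem_piFinset]
    intro r
    split_ifs with hr
    · rw [mem_singleton]
      obtain ⟨i, hi⟩ := mem_Tb.1 hr
      rw [← idx F h.2 hi, idx F hq hi]
    · exact mem_univ _
  refine (card_le_card h1).trans (le_of_eq ?_)
  rw [Fintype.card_piFinset]
  have h2 : ∀ r, (if r ∈ Tb p q then ({ω r} : Finset (Fin M)) else univ).card =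
      if r ∈ Tb p q then 1 else M := by
    intro r
    split_ifs <;> simp
  rw [prod_congr rfl fun r _ => h2 r, prod_ite, prod_const_one, one_mul, prod_const]
  congr 1
  have h3 : (univ.filter fun r => r ∉ Tb p q) = (Tb p q)ᶜ := by
    ext r; simp
  rw [h3, card_compl, Fintype.card_fin]

/-- **The average.** -/
theorem avg (F : Fam B D P0 z R M p) (A : ℕ → ℝ) (hA : ∀ q, 0 ≤ A q) (Z : ℕ → ℝ)
    (hZ : ∀ t ≤ R, ∀ Q : Finset ℕ,
      (∀ q ∈ Q, 1 < q ∧ Nat.Coprime B q ∧ Nat.Coprime D q ∧ q ≤ P0 * z ^ t) → ∑ q ∈ Q, A q ≤ Z t) :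
    ∑ ω : Fin R → Fin M, ∑ q ∈ (Pm P0 p ω).divisors.erase 1, A q ≤
      ∑ t ∈ range (R + 1), (M : ℝ) ^ (R - t) * Z t := by
  classical
  set Dv : (Fin R → Fin M) → Finset ℕ := fun ω => (Pm P0 p ω).divisors.erase 1 with hDv
  set Q : Finset ℕ := univ.biUnion Dv with hQ
  have hmem : ∀ q ∈ Q, ∃ ω, q ∣ Pm P0 p ω ∧ q ≠ 1 := by
    intro q hq
    rw [hQ, mem_biUnion] at hq
    obtain ⟨ω, -, h⟩ := hq
    rw [hDv, mem_erase, Nat.mem_divisors] at h
    exact ⟨ω, h.2.1, h.1⟩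
  have h1 : ∀ ω, ∑ q ∈ Dv ω, A q = ∑ q ∈ Q, if q ∣ Pm P0 p ω then A q else 0 := by
    intro ω
    rw [← sum_filter]
    congr 1
    ext q
    rw [mem_filter, hDv, mem_erase, Nat.mem_divisors]
    constructor
    · intro h
      refine ⟨?_, h.2.1⟩
      rw [hQ, mem_biUnion]
      refine ⟨ω, mem_univ _, ?_⟩
      rw [hDv, mem_erase, Nat.mem_divisors]
      exact h
    · intro h
      obtain ⟨ω', -, h3⟩ := hmem q h.1
      exact ⟨h3, h.2, (Pm_pos F ω).ne'⟩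
  calc ∑ ω, ∑ q ∈ Dv ω, A q = ∑ q ∈ Q, ∑ ω, if q ∣ Pm P0 p ω then A q else 0 := by
        rw [sum_comm]
        exact sum_congr rfl fun ω _ => h1 ω
    _ ≤ ∑ q ∈ Q, (M : ℝ) ^ (R - (Tb p q).card) * A q := by
        refine sum_le_sum fun q hq => ?_
        obtain ⟨ω, h2, -⟩ := hmem q hq
        rw [← sum_filter, sum_const, nsmul_eq_mul]
        refine mul_le_mul_of_nonneg_right ?_ (hA q)
        exact_mod_cast count_le F h2
    _ = ∑ t ∈ range (R + 1), ∑ q ∈ Q.filter (fun q => (Tb p q).card = t),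
          (M : ℝ) ^ (R - (Tb p q).card) * A q := by
        refine (sum_fiberwise_of_maps_to (fun q _ => ?_) _).symm
        rw [mem_range]
        exact Nat.lt_succ_of_le (Tb_card q)
    _ ≤ ∑ t ∈ range (R + 1), (M : ℝ) ^ (R - t) * Z t := by
        refine sum_le_sum fun t ht => ?_
        rw [mem_range] at ht
        have h2 : ∑ q ∈ Q.filter (fun q => (Tb p q).card = t), (M : ℝ) ^ (R - (Tb p q).card) * A q =
            (M : ℝ) ^ (R - t) * ∑ q ∈ Q.filter (fun q => (Tb p q).card = t), A q := by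
          rw [mul_sum]
          refine sum_congr rfl fun q hq => ?_
          rw [(mem_filter.1 hq).2]
        rw [h2]
        refine mul_le_mul_of_nonneg_left (hZ t (by omega) _ ?_) (by positivity)
        intro q hq
        rw [mem_filter] at hq
        obtain ⟨ω, h3, h4⟩ := hmem q hq.1
        have hq0 : 0 < q := Nat.pos_of_dvd_of_pos h3 (Pm_pos F ω)
        refine ⟨by omega, ?_, ?_, ?_⟩
        · exact Nat.Coprime.coprime_dvd_right h3 (cop_Pm F ω F.cB F.pB)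
        · exact Nat.Coprime.coprime_dvd_right h3 (cop_Pm F ω F.cD F.pD)
        · rw [← hq.2]
          exact q_le F h3

/-- **A good choice.** -/
theorem exists_choice (F : Fam B D P0 z R M p) (hB : 2 ≤ B) (hM : 1 ≤ M) (N : ℕ) (L K : ℕ → ℕ)
    (h1 : ∀ t ≤ R, ((P0 * z ^ t : ℕ) : ℝ) ^ 2 < (B : ℝ) ^ L t) (h2 : ∀ t ≤ R, 1 ≤ K t)
    (h3 : ∀ t ≤ R, K t * L t ≤ N) :
    ∃ ω : Fin R → Fin M, ∑ h ∈ Ico 1 (Pm P0 p ω), blk B N (D * ((h : ℝ) / Pm P0 p ω)) ≤
      ∑ t ∈ range (R + 1), (1 / (M : ℝ)) ^ t * ((1 + 2 * B * lam B ^ K t) ^ L t - 1) := by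
  have hM0 : (0 : ℝ) < M := by exact_mod_cast hM
  set Z : ℕ → ℝ := fun t => (1 + 2 * B * lam B ^ K t) ^ L t - 1 with hZ
  set A : ℕ → ℝ := fun q => ∑ a ∈ AA q, blk B N (D * ((a : ℝ) / q)) with hA
  have h4 := avg F A (fun q => sum_nonneg fun _ _ => blk_nonneg _ _ _) Z (by
    intro t ht Q hQ
    have h5 : ∑ q ∈ Q, A q = ∑ q ∈ Q, ∑ a ∈ AA q, blk B N ((a : ℝ) / q) := by
      refine sum_congr rfl fun q hq => ?_
      obtain ⟨a1, -, a3, -⟩ := hQ q hq
      exact sum_mul q a1 D a3 (fun x => blk B N x) (fun x n => blk_int B N x n)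
    rw [h5]
    exact sum_blk B hB Q (P0 * z ^ t) (fun q hq => ⟨(hQ q hq).1, (hQ q hq).2.1, (hQ q hq).2.2.2⟩)
      (L t) (K t) N (h1 t ht) (h2 t ht) (h3 t ht))
  have h5 : ∑ ω : Fin R → Fin M, ∑ h ∈ Ico 1 (Pm P0 p ω), blk B N (D * ((h : ℝ) / Pm P0 p ω)) ≤
      ∑ ω : Fin R → Fin M, ∑ t ∈ range (R + 1), (1 / (M : ℝ)) ^ t * Z t := by
    calc ∑ ω : Fin R → Fin M, ∑ h ∈ Ico 1 (Pm P0 p ω), blk B N (D * ((h : ℝ) / Pm P0 p ω))
        ≤ ∑ ω : Fin R → Fin M, ∑ q ∈ (Pm P0 p ω).divisors.erase 1, A q :=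
          sum_le_sum fun ω _ => denoms _ (Pm_pos F ω) (fun x => blk B N (D * x))
            fun x => blk_nonneg _ _ _
      _ ≤ ∑ t ∈ range (R + 1), (M : ℝ) ^ (R - t) * Z t := h4
      _ = ∑ ω : Fin R → Fin M, ∑ t ∈ range (R + 1), (1 / (M : ℝ)) ^ t * Z t := by
          rw [sum_const, card_univ, Fintype.card_fun, Fintype.card_fin, Fintype.card_fin,
            nsmul_eq_mul, mul_sum]
          refine sum_congr rfl fun t ht => ?_
          rw [mem_range] at ht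
          have h6 : (M : ℝ) ^ R = (M : ℝ) ^ (R - t) * (M : ℝ) ^ t := by
            rw [← pow_add]; congr 1; omega
          push_cast
          rw [h6, one_div, inv_pow]
          field_simp
  have : Nonempty (Fin M) := ⟨⟨0, hM⟩⟩
  obtain ⟨ω, -, h6⟩ := exists_le_of_sum_le (univ_nonempty (α := Fin R → Fin M)) h5
  exact ⟨ω, h6⟩

end

end Pool.Agent.D0H92.AG
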