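import Pool.Agent.D0H92.AG.Avg

set_option autoImplicit false

/-!
# From residue classes to prime-free intervals
-/

namespace Pool.Agent.D0H92.AG

open Finset

/-- the Chinese remainder theorem -/
lemma crt {ι : Type} (t : Finset ι) (s : ι → ℕ) (hs : ∀ i ∈ t, (s i).Prime)
    (hinj : ∀ i ∈ t, ∀ j ∈ t, s i = s j → i = j) (f : ι → ℤ) : ∃ c : ℤ, ∀ i ∈ t, (s i : ℤ) ∣ c - f i := by
  obtain ⟨k, hk⟩ := Nat.chineseRemainderOfFinset (fun i => (f i % (s i : ℤ)).toNat) s t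
    (fun i hi => (hs i hi).ne_zero) (by
      intro i hi j hj hij
      exact (Nat.coprime_primes (hs i hi) (hs j hj)).2 fun h => hij (hinj i hi j hj h))
  refine ⟨k, fun i hi => ?_⟩
  have h1 := hk i hi
  have hs0 : (0 : ℤ) < s i := by exact_mod_cast (hs i hi).pos
  have h2 : ((f i % (s i : ℤ)).toNat : ℤ) = f i % s i := Int.toNat_of_nonneg (Int.emod_nonneg _ hs0.ne')
  have h3 := (Nat.modEq_iff_dvd.1 h1.symm)
  rw [h2] at h3
  have h4 : (s i : ℤ) ∣ f i % s i - f i := by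
    rw [← neg_sub, dvd_neg]
    exact Int.dvd_self_sub_emod
  have h5 : (k : ℤ) - f i = (k - f i % s i) + (f i % s i - f i) := by ring
  rw [h5]
  exact dvd_add h3 h4

/-- the primes up to `Y` which do not divide `D` -/
def PP (D Y : ℕ) : Finset ℕ := (range (Y + 1)).filter fun p => p.Prime ∧ ¬ p ∣ D

lemma mem_PP {D Y p : ℕ} : p ∈ PP D Y ↔ p ≤ Y ∧ p.Prime ∧ ¬ p ∣ D := by
  unfold PP
  rw [mem_filter, mem_range]
  constructor
  · rintro ⟨h1, h2⟩; exact ⟨by omega, h2⟩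
  · rintro ⟨h1, h2⟩; exact ⟨by omega, h2⟩

/-- the product of the primes up to `Y` which do not divide `D` -/
def P0 (D Y : ℕ) : ℕ := ∏ p ∈ PP D Y, p

lemma P0_pos (D Y : ℕ) : 0 < P0 D Y := prod_pos fun _ hp => (mem_PP.1 hp).2.1.pos

lemma P0_le (D Y : ℕ) : P0 D Y ≤ 4 ^ Y := by
  refine le_trans ?_ (primorial_le_four_pow Y)
  unfold P0 primorial
  refine prod_le_prod_of_subset_of_one_le' ?_ fun p hp _ => ?_
  · intro p hp
    rw [mem_PP] at hp
    rw [mem_filter, mem_range]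
    exact ⟨by omega, hp.2.1⟩
  · exact (mem_filter.1 hp).2.one_lt.le

lemma not_dvd_P0 {D Y p : ℕ} (hp : p.Prime) (h : Y < p) : ¬ p ∣ P0 D Y := by
  intro h1
  obtain ⟨q, hq, h2⟩ := (hp.prime.dvd_finsetProd_iff _).1 h1
  rw [mem_PP] at hq
  have := (Nat.prime_dvd_prime_iff_eq hp hq.2.1).1 h2
  omega

lemma coprime_P0 {D Y c : ℕ} (hc : ∀ p, p.Prime → p ∣ c → p ∣ D) : Nat.Coprime c (P0 D Y) := by
  unfold P0
  refine Nat.Coprime.prod_right fun p hp => ?_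
  rw [mem_PP] at hp
  exact (hp.2.1.coprime_iff_not_dvd.2 fun h => hp.2.2 (hc p hp.2.1 h)).symm

/-- the shift which makes the classes modulo the divisors of `D` correct -/
lemma exists_shift (D : ℕ) (hD : 1 ≤ D) (a : ℤ) (b : ℕ → ℕ) (H : ℕ) :
    ∃ t : ℤ, -(H : ℤ) - D ≤ t ∧ t ≤ -(H : ℤ) - 1 ∧ ∀ p, p.Prime → p ∣ D → (p : ℤ) ∣ a + b p + t := by
  obtain ⟨t', ht'⟩ := crt D.primeFactors id (fun p hp => Nat.prime_of_mem_primeFactors hp)
    (fun _ _ _ _ h => h) (fun p => -(a + b p))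
  set Q : ℤ := ((∏ p ∈ D.primeFactors, p : ℕ) : ℤ) with hQ
  have hQ0 : 0 < Q := by
    rw [hQ]
    exact_mod_cast prod_pos fun p hp => (Nat.prime_of_mem_primeFactors hp).pos
  have hQD : Q ≤ D := by
    rw [hQ]
    exact_mod_cast Nat.le_of_dvd (by omega) (Nat.prod_primeFactors_dvd D)
  set r : ℤ := (-(H : ℤ) - 1 - t') % Q with hr
  have h1 : 0 ≤ r := Int.emod_nonneg _ hQ0.ne'
  have h2 : r < Q := Int.emod_lt_of_pos _ hQ0
  refine ⟨-(H : ℤ) - 1 - r, by omega, by omega, fun p hp hpD => ?_⟩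
  have h3 : (p : ℤ) ∣ Q := by
    rw [hQ]
    exact_mod_cast dvd_prod_of_mem _ (Nat.mem_primeFactors.2 ⟨hp, hpD, by omega⟩)
  have h4 : (p : ℤ) ∣ t' - -(a + b p) := ht' p (Nat.mem_primeFactors.2 ⟨hp, hpD, by omega⟩)
  have h5 : (p : ℤ) ∣ (-(H : ℤ) - 1 - t') - r := h3.trans Int.dvd_self_sub_emod
  have h6 : a + (b p : ℤ) + (-(H : ℤ) - 1 - r) = (t' - -(a + b p)) + ((-(H : ℤ) - 1 - t') - r) := by ring
  rw [h6]
  exact dvd_add h4 h5

/-- **The residue class.** -/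
theorem cover {B D z R M : ℕ} {p : Fin R → Fin M → ℕ} (Y : ℕ) (hD : 1 ≤ D)
    (F : Fam B D (P0 D Y) z R M p) (hY : ∀ r i, Y < p r i) (b : ℕ → ℕ) (H L : ℕ)
    (hL : 2 * H + D + 1 ≤ L) (k : Fin R → ℕ)
    (hk : ∀ x ∈ Icc 1 L, (∀ q : ℕ, q.Prime → q ≤ Y → ¬ x ≡ b q [MOD q]) → ∃ r, k r = x)
    (a : ℤ) (ω : Fin R → Fin M) :
    ∃ c : ℤ, ∀ n : ℤ, (D : ℤ) ∣ n - a → (Pm (P0 D Y) p ω : ℤ) ∣ n - c → ∀ m : ℤ, |m - n| ≤ H →
      ∃ q : ℕ, q.Prime ∧ (q ≤ Y ∨ q ≤ z) ∧ (q : ℤ) ∣ m := by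
  obtain ⟨t, ht1, ht2, ht3⟩ := exists_shift D hD a b H
  obtain ⟨c, hc⟩ := crt ((PP D Y).disjSum univ)
    (Sum.elim id (fun r : Fin R => p r (ω r))) (by
      rintro (q | r) h
      · rw [inl_mem_disjSum, mem_PP] at h
        exact h.2.1
      · exact F.pr r _) (by
      rintro (q | r) h (q' | r') h' heq
      · change q = q' at heq
        rw [heq]
      · rw [inl_mem_disjSum, mem_PP] at h
        change q = p r' (ω r') at heq
        have := hY r' (ω r')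
        omega
      · rw [inl_mem_disjSum, mem_PP] at h'
        change p r (ω r) = q' at heq
        have := hY r (ω r)
        omega
      · rw [(F.inj _ _ _ _ heq).1])
    (Sum.elim (fun q => -((b q : ℤ) + t)) (fun r : Fin R => -(t + (k r : ℤ))))
  refine ⟨c, fun n hnD hn m hm => ?_⟩
  rw [abs_le] at hm
  -- the position of `m`
  obtain ⟨x, hx⟩ : ∃ x : ℕ, (x : ℤ) = m - n - t := ⟨(m - n - t).toNat, Int.toNat_of_nonneg (by omega)⟩
  have hxI : x ∈ Icc 1 L := by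
    rw [mem_Icc]
    omega
  by_cases hs : ∀ q : ℕ, q.Prime → q ≤ Y → ¬ x ≡ b q [MOD q]
  · obtain ⟨r, hr⟩ := hk x hxI hs
    refine ⟨p r (ω r), F.pr _ _, Or.inr (F.le _ _), ?_⟩
    have h1 : ((p r (ω r) : ℕ) : ℤ) ∣ c - -(t + (k r : ℤ)) := hc (Sum.inr r) (by simp)
    have h2 : ((p r (ω r) : ℕ) : ℤ) ∣ n - c := by
      refine Dvd.dvd.trans ?_ hn
      unfold Pm
      exact_mod_cast (dvd_prod_of_mem _ (mem_univ r)).mul_left _
    have h3 : m = (n - c) + (c - -(t + (k r : ℤ))) := by rw [hr]; linear_combination -hx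
    rw [h3]
    exact dvd_add h2 h1
  · push Not at hs
    obtain ⟨q, hq, hqY, hxq⟩ := hs
    refine ⟨q, hq, Or.inl hqY, ?_⟩
    have h1 : (q : ℤ) ∣ (x : ℤ) - b q := (Nat.modEq_iff_dvd.1 hxq.symm)
    by_cases hqD : q ∣ D
    · have h2 := ht3 q hq hqD
      have h3 : (q : ℤ) ∣ n - a := (Int.natCast_dvd_natCast.2 hqD).trans hnD
      have h4 : m = (x - b q) + (a + b q + t) + (n - a) := by linear_combination -hx
      rw [h4]
      exact dvd_add (dvd_add h1 h2) h3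
    · have hqP : q ∈ PP D Y := mem_PP.2 ⟨hqY, hq, hqD⟩
      have h2 : (q : ℤ) ∣ c - -((b q : ℤ) + t) := hc (Sum.inl q) (by simpa using hqP)
      have h3 : (q : ℤ) ∣ n - c := by
        refine Dvd.dvd.trans ?_ hn
        unfold Pm P0
        exact_mod_cast (dvd_prod_of_mem _ hqP).mul_right _
      have h4 : m = (x - b q) + (c - -((b q : ℤ) + t)) + (n - c) := by linear_combination -hx
      rw [h4]
      exact dvd_add (dvd_add h1 h2) h3

end Pool.Agent.D0H92.AG
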