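import Pool.Agent.D0H92.AG.Itin

set_option autoImplicit false

/-!
# The members of a cube in a residue class
-/

namespace Pool.Agent.D0H92.AG

open Finset

/-- `exp (2 π i x)` -/
noncomputable def ee (x : ℝ) : ℂ := Complex.exp (2 * Real.pi * x * Complex.I)

lemma ee_add (x y : ℝ) : ee (x + y) = ee x * ee y := by
  unfold ee
  rw [← Complex.exp_add]
  congr 1
  push_cast
  ring

lemma ee_zero : ee 0 = 1 := by
  unfold ee
  simp

lemma ee_norm (x : ℝ) : ‖ee x‖ = 1 := by
  unfold ee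
  have : (2 * Real.pi * x * Complex.I : ℂ) = ((2 * Real.pi * x : ℝ) : ℂ) * Complex.I := by push_cast; ring
  rw [this, Complex.norm_exp_ofReal_mul_I]

lemma ee_nat_mul (x : ℝ) (n : ℕ) : ee (n * x) = ee x ^ n := by
  unfold ee
  rw [← Complex.exp_nat_mul]
  congr 1
  push_cast
  ring

lemma ee_eq_one (x : ℝ) : ee x = 1 ↔ ∃ n : ℤ, x = n := by
  unfold ee
  rw [Complex.exp_eq_one_iff]
  have hpi : (2 * Real.pi * Complex.I : ℂ) ≠ 0 := Complex.two_pi_I_ne_zero
  constructor
  · rintro ⟨n, hn⟩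
    refine ⟨n, ?_⟩
    have h1 : (x : ℂ) * (2 * Real.pi * Complex.I) = n * (2 * Real.pi * Complex.I) := by
      rw [← hn]; ring
    have h2 := mul_right_cancel₀ hpi h1
    exact_mod_cast h2
  · rintro ⟨n, rfl⟩
    exact ⟨n, by push_cast; ring⟩

lemma norm_one_add (x : ℝ) : ‖1 + ee x‖ = 2 * cf x := by
  have h1 : 1 + ee x = Complex.exp ((Real.pi * x : ℝ) * Complex.I) * (2 * Real.cos (Real.pi * x) : ℝ) := by
    unfold ee
    push_cast
    rw [Complex.two_cos, mul_add, ← Complex.exp_add, ← Complex.exp_add]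
    have e1 : (Real.pi * x * Complex.I + Real.pi * x * Complex.I : ℂ) =
        2 * Real.pi * x * Complex.I := by ring
    have e2 : (Real.pi * x * Complex.I + -(Real.pi * x) * Complex.I : ℂ) = 0 := by ring
    rw [e1, e2, Complex.exp_zero]
    ring
  rw [h1, norm_mul, Complex.norm_exp_ofReal_mul_I, one_mul, Complex.norm_real, Real.norm_eq_abs,
    abs_mul, abs_two, cf]

lemma orth (P : ℕ) (hP : 0 < P) (m : ℤ) :
    ∑ h ∈ range P, ee (h * ((m : ℝ) / P)) = if (P : ℤ) ∣ m then (P : ℂ) else 0 := by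
  have hP0 : (P : ℝ) ≠ 0 := by exact_mod_cast hP.ne'
  have h1 : ∀ h ∈ range P, ee (h * ((m : ℝ) / P)) = ee ((m : ℝ) / P) ^ h := fun h _ => ee_nat_mul _ _
  rw [sum_congr rfl h1]
  split_ifs with hd
  · obtain ⟨k, rfl⟩ := hd
    have h2 : ee ((((P : ℤ) * k : ℤ) : ℝ) / P) = 1 := by
      rw [ee_eq_one]
      refine ⟨k, ?_⟩
      push_cast
      field_simp
    rw [h2]
    simp
  · have h2 : ee ((m : ℝ) / P) ≠ 1 := by
      rw [Ne, ee_eq_one]
      rintro ⟨k, hk⟩
      apply hd
      refine ⟨k, ?_⟩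
      rw [div_eq_iff hP0] at hk
      have : (m : ℝ) = ((P * k : ℤ) : ℝ) := by push_cast; linarith
      exact_mod_cast this
    have h3 : ee ((m : ℝ) / P) ^ P = 1 := by
      rw [← ee_nat_mul, ee_eq_one]
      exact ⟨m, by field_simp⟩
    have h4 := geom_sum_mul (ee ((m : ℝ) / P)) P
    rw [h3, sub_self] at h4
    exact (mul_eq_zero.1 h4).resolve_right (sub_ne_zero.2 h2)

/-- the member of the cube given by a set of exponents -/
def mem (a : ℤ) (D B : ℕ) (E : Finset ℕ) : ℤ := a + D * ∑ j ∈ E, (B : ℤ) ^ j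

/-- **Members of a cube in a residue class.** -/
theorem cube_count (P : ℕ) (hP : 0 < P) (a c : ℤ) (D B N : ℕ) :
    (2 : ℝ) ^ N * (1 - ∑ h ∈ Ico 1 P, blk B N (D * ((h : ℝ) / P))) ≤
      P * (((range N).powerset.filter fun E => (P : ℤ) ∣ mem a D B E - c).card : ℝ) := by
  have h1 : (P : ℂ) * (((range N).powerset.filter fun E => (P : ℤ) ∣ mem a D B E - c).card : ℂ) =
      ∑ h ∈ range P, ee (h * (((a - c : ℤ) : ℝ) / P)) *
        ∏ j ∈ range N, (1 + ee ((B : ℝ) ^ j * (D * ((h : ℝ) / P)))) := by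
    calc (P : ℂ) * (((range N).powerset.filter fun E => (P : ℤ) ∣ mem a D B E - c).card : ℂ)
        = ∑ E ∈ (range N).powerset, if (P : ℤ) ∣ mem a D B E - c then (P : ℂ) else 0 := by
          rw [← sum_filter, sum_const, nsmul_eq_mul, mul_comm]
      _ = ∑ E ∈ (range N).powerset, ∑ h ∈ range P, ee (h * (((mem a D B E - c : ℤ) : ℝ) / P)) :=
          sum_congr rfl fun E _ => (orth P hP _).symm
      _ = ∑ h ∈ range P, ∑ E ∈ (range N).powerset, ee (h * (((mem a D B E - c : ℤ) : ℝ) / P)) :=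
          sum_comm
      _ = _ := by
          refine sum_congr rfl fun h _ => ?_
          rw [prod_one_add, mul_sum]
          refine sum_congr rfl fun E _ => ?_
          have h2 : (h : ℝ) * (((mem a D B E - c : ℤ) : ℝ) / P) =
              h * (((a - c : ℤ) : ℝ) / P) + ∑ j ∈ E, (B : ℝ) ^ j * (D * ((h : ℝ) / P)) := by
            unfold mem
            push_cast
            rw [← Finset.sum_mul]
            ring
          have h3 : ∀ s : Finset ℕ, ee (∑ j ∈ s, (B : ℝ) ^ j * (D * ((h : ℝ) / P))) =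
              ∏ j ∈ s, ee ((B : ℝ) ^ j * (D * ((h : ℝ) / P))) := by
            intro s
            induction s using Finset.induction_on with
            | empty => simp [ee_zero]
            | insert j s hj ih => rw [sum_insert hj, prod_insert hj, ee_add, ih]
          rw [h2, ee_add, h3]
  have hsplit : range P = insert 0 (Ico 1 P) := by
    ext h
    rw [mem_range, mem_insert, mem_Ico]
    omega
  have h0 : (0 : ℕ) ∉ Ico 1 P := by rw [mem_Ico]; omega
  rw [hsplit, sum_insert h0] at h1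
  have h4 : ee (((0 : ℕ) : ℝ) * (((a - c : ℤ) : ℝ) / P)) *
      ∏ j ∈ range N, (1 + ee ((B : ℝ) ^ j * (D * (((0 : ℕ) : ℝ) / P)))) = (2 : ℂ) ^ N := by
    simp only [Nat.cast_zero, zero_mul, zero_div, mul_zero, ee_zero]
    rw [prod_const, card_range, one_mul]
    norm_num
  rw [h4] at h1
  have h5 : ‖∑ h ∈ Ico 1 P, ee (h * (((a - c : ℤ) : ℝ) / P)) *
      ∏ j ∈ range N, (1 + ee ((B : ℝ) ^ j * (D * ((h : ℝ) / P))))‖ ≤
      2 ^ N * ∑ h ∈ Ico 1 P, blk B N (D * ((h : ℝ) / P)) := by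
    refine (norm_sum_le _ _).trans (le_of_eq ?_)
    rw [mul_sum]
    refine sum_congr rfl fun h _ => ?_
    rw [norm_mul, ee_norm, one_mul, norm_prod, prod_congr rfl fun j _ => norm_one_add _,
      prod_mul_distrib, prod_const, card_range]
    rfl
  set S : ℂ := ∑ h ∈ Ico 1 P, ee (h * (((a - c : ℤ) : ℝ) / P)) *
      ∏ j ∈ range N, (1 + ee ((B : ℝ) ^ j * (D * ((h : ℝ) / P)))) with hS
  have h6 := congrArg Complex.re h1
  have h7 : ((P : ℂ) * (((range N).powerset.filter fun E => (P : ℤ) ∣ mem a D B E - c).card : ℂ)).re =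
      P * (((range N).powerset.filter fun E => (P : ℤ) ∣ mem a D B E - c).card : ℝ) := by
    norm_cast
  have h8 : ((2 : ℂ) ^ N + S).re = 2 ^ N + S.re := by
    rw [Complex.add_re]
    congr 1
    norm_cast
  rw [h7, h8] at h6
  rw [h6]
  have h9 : -‖S‖ ≤ S.re := by
    have := Complex.abs_re_le_norm S
    rw [abs_le] at this
    exact this.1
  linarith

end Pool.Agent.D0H92.AG
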