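import Pool.Agent.D0H92.AG.Itin

set_option autoImplicit false

/-!
# The choice of the parameters
-/

namespace Pool.Agent.D0H92.AG

open Finset Filter

/-- `log₂ N ≤ 3 log N` -/
lemma clog_le (N : ℕ) (hN : 3 ≤ N) : (Nat.clog 2 N : ℝ) ≤ 3 * Real.log N := by
  have h1 : 2 ^ (Nat.clog 2 N - 1) < N := Nat.pow_pred_clog_lt_self (by norm_num) (by omega)
  have h2 : ((Nat.clog 2 N - 1 : ℕ) : ℝ) * Real.log 2 ≤ Real.log N := by
    rw [← Real.log_pow]
    apply Real.log_le_log (by positivity)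
    exact_mod_cast h1.le
  have h3 : (Nat.clog 2 N : ℝ) ≤ ((Nat.clog 2 N - 1 : ℕ) : ℝ) + 1 := by
    have : Nat.clog 2 N ≤ (Nat.clog 2 N - 1) + 1 := by omega
    exact_mod_cast this
  have h4 : (0.6931 : ℝ) < Real.log 2 := by have := Real.log_two_gt_d9; linarith
  have h5 : (1 : ℝ) ≤ Real.log N := by
    have h6 : Real.exp 1 ≤ N := by
      have := Real.exp_one_lt_d9
      have h7 : (3 : ℝ) ≤ N := by exact_mod_cast hN
      linarith
    rw [← Real.log_exp 1]
    exact Real.log_le_log (Real.exp_pos _) h6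
  nlinarith

/-- powers of `lam` are small -/
lemma exists_pow_lam (B : ℕ) (hB : 2 ≤ B) (ε : ℝ) (hε : 0 < ε) : ∃ k : ℕ, 1 ≤ k ∧ lam B ^ k ≤ ε := by
  obtain ⟨k, hk⟩ := exists_pow_lt_of_lt_one hε (lam_lt_one B hB)
  refine ⟨k + 1, by omega, ?_⟩
  rw [pow_succ]
  have h1 := lam_nonneg B hB
  have h2 := (lam_lt_one B hB).le
  have h3 : 0 ≤ lam B ^ k := pow_nonneg h1 _
  nlinarith

/-- `(1 + x) ^ L ≤ exp (x L)` -/
lemma one_add_pow (x : ℝ) (hx : 0 ≤ x) (L : ℕ) : (1 + x) ^ L ≤ Real.exp (x * L) := by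
  rw [mul_comm, Real.exp_nat_mul]
  apply pow_le_pow_left₀ (by linarith)
  rw [add_comm]
  exact Real.add_one_le_exp x

/-- `(1 + x) ^ L - 1 ≤ 2 x L` if `x L ≤ 1` -/
lemma one_add_pow_sub (x : ℝ) (hx : 0 ≤ x) (L : ℕ) (h : x * L ≤ 1) : (1 + x) ^ L - 1 ≤ 2 * (x * L) := by
  have h1 := one_add_pow x hx L
  have h0 : 0 ≤ x * L := by positivity
  have h2 := Real.abs_exp_sub_one_le (x := x * L) (by rw [abs_of_nonneg h0]; exact h)
  rw [abs_le, abs_of_nonneg h0] at h2
  linarith [h2.2]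

/-- the lengths -/
def LL (N Y t : ℕ) : ℕ := 4 * Y + 6 * Nat.clog 2 N * t + 1

lemma LL_spec (B N Y t P : ℕ) (hB : 2 ≤ B) (hP : P ≤ 4 ^ Y) :
    ((P * (N ^ 3) ^ t : ℕ) : ℝ) ^ 2 < (B : ℝ) ^ LL N Y t := by
  have h1 : N ≤ 2 ^ Nat.clog 2 N := Nat.le_pow_clog (by norm_num) N
  have h2 : P * (N ^ 3) ^ t ≤ 2 ^ (2 * Y + 3 * Nat.clog 2 N * t) := by
    rw [pow_add]
    refine Nat.mul_le_mul ?_ ?_
    · refine hP.trans (le_of_eq ?_)
      rw [pow_mul]
      norm_num
    · rw [← pow_mul]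
      calc N ^ (3 * t) ≤ (2 ^ Nat.clog 2 N) ^ (3 * t) := Nat.pow_le_pow_left h1 _
        _ = 2 ^ (3 * Nat.clog 2 N * t) := by rw [← pow_mul]; congr 1; ring
  have h3 : (P * (N ^ 3) ^ t) ^ 2 < B ^ LL N Y t := by
    calc (P * (N ^ 3) ^ t) ^ 2 ≤ (2 ^ (2 * Y + 3 * Nat.clog 2 N * t)) ^ 2 := Nat.pow_le_pow_left h2 _
      _ = 2 ^ (4 * Y + 6 * Nat.clog 2 N * t) := by rw [← pow_mul]; congr 1; ring
      _ < 2 ^ LL N Y t := Nat.pow_lt_pow_right (by norm_num) (by unfold LL; omega)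
      _ ≤ B ^ LL N Y t := Nat.pow_le_pow_left hB _
  exact_mod_cast h3

/-- a term with few large primes -/
lemma term1 (N B L t : ℕ) (x : ℝ) (hx0 : 0 ≤ x) (hB : 1 ≤ B) (hNB : 64 * (B : ℝ) ≤ N)
    (h : x ≤ 2 * B * (1 / (N : ℝ) ^ 3)) (hL : (L : ℝ) ≤ 23 * N) :
    (1 / (N : ℝ)) ^ t * ((1 + x) ^ L - 1) ≤ (1 / 8) * (1 / 2) ^ t := by
  have hB1 : (1 : ℝ) ≤ B := by exact_mod_cast hB
  have hN0 : (0 : ℝ) < N := by linarith
  have h6 : x * L ≤ 46 * B / (N : ℝ) ^ 2 := by
    calc x * L ≤ (2 * B * (1 / (N : ℝ) ^ 3)) * (23 * N) := by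
          exact mul_le_mul h hL (by positivity) (by positivity)
      _ = 46 * B / (N : ℝ) ^ 2 := by field_simp; norm_num
  have h7 : 46 * B / (N : ℝ) ^ 2 ≤ 1 / 16 := by
    rw [div_le_div_iff₀ (by positivity) (by norm_num)]
    nlinarith
  have h8 := one_add_pow_sub x hx0 L (by linarith)
  have h9 : (1 + x) ^ L - 1 ≤ 1 / 8 := by linarith
  have h10 : (1 / (N : ℝ)) ^ t ≤ (1 / 2) ^ t := by
    apply pow_le_pow_left₀ (by positivity)
    apply one_div_le_one_div_of_le (by norm_num)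
    linarith
  have h11 : 0 ≤ (1 + x) ^ L - 1 := by
    have := one_le_pow₀ (n := L) (by linarith : (1 : ℝ) ≤ 1 + x)
    linarith
  calc (1 / (N : ℝ)) ^ t * ((1 + x) ^ L - 1) ≤ (1 / 2) ^ t * (1 / 8) :=
        mul_le_mul h10 h9 h11 (by positivity)
    _ = _ := by ring

lemma exp_five : Real.exp (-5) ≤ 1 / 16 := by
  rw [Real.exp_neg, one_div]
  apply inv_anti₀ (by norm_num)
  have h7 : Real.exp 5 = Real.exp (5 / 2) * Real.exp (5 / 2) := by
    rw [← Real.exp_add]; norm_num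
  have h8 := Real.add_one_le_exp (5 / 4 : ℝ)
  have h9 : Real.exp (5 / 2) = Real.exp (5 / 4) * Real.exp (5 / 4) := by
    rw [← Real.exp_add]; norm_num
  have h10 : (4 : ℝ) ≤ Real.exp (5 / 2) := by rw [h9]; nlinarith
  rw [h7]
  nlinarith

/-- a term with many large primes -/
lemma term2 (N L t : ℕ) (T x : ℝ) (hx0 : 0 ≤ x) (hT : 10 ≤ T) (hN : (N : ℝ) = Real.exp T) (ht : 1 ≤ t)
    (h3 : x * L ≤ t * (T / 2)) :
    (1 / (N : ℝ)) ^ t * ((1 + x) ^ L - 1) ≤ (1 / 8) * (1 / 2) ^ t := by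
  have h4 : (1 + x) ^ L - 1 ≤ Real.exp (t * (T / 2)) := by
    have := one_add_pow x hx0 L
    have h5 := Real.exp_le_exp.2 h3
    linarith
  have h5 : (1 / (N : ℝ)) ^ t = Real.exp (t * (-T)) := by
    rw [Real.exp_nat_mul, hN, Real.exp_neg, one_div]
  calc (1 / (N : ℝ)) ^ t * ((1 + x) ^ L - 1)
      ≤ Real.exp (t * (-T)) * Real.exp (t * (T / 2)) := by
        rw [h5]
        exact mul_le_mul_of_nonneg_left h4 (Real.exp_pos _).le
    _ = Real.exp (-(T / 2)) ^ t := by
        rw [← Real.exp_add, ← Real.exp_nat_mul]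
        congr 1
        ring
    _ ≤ (1 / 16) ^ t := by
        apply pow_le_pow_left₀ (Real.exp_pos _).le
        exact (Real.exp_le_exp.2 (by linarith)).trans exp_five
    _ = (1 / 8) ^ t * (1 / 2) ^ t := by rw [← mul_pow]; norm_num
    _ ≤ (1 / 8) * (1 / 2) ^ t := by
        refine mul_le_mul_of_nonneg_right ?_ (by positivity)
        calc (1 / 8 : ℝ) ^ t ≤ (1 / 8) ^ 1 := pow_le_pow_of_le_one (by norm_num) (by norm_num) ht
          _ = 1 / 8 := pow_one _

/-- **The numerical estimate.** -/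
theorem num (B : ℕ) (hB : 2 ≤ B) (η : ℝ) (hη : 0 < η) : ∃ δ : ℝ, 0 < δ ∧ δ ≤ 1 ∧ ∀ᶠ N : ℕ in atTop,
    ∀ Y R : ℕ, (Y : ℝ) ≤ δ * N / Real.log N → (R : ℝ) ≤ δ * N / Real.log N →
      (∀ t ≤ R, 1 ≤ N / LL N Y t) ∧
      ∑ t ∈ range (R + 1), (1 / (N : ℝ)) ^ t * ((1 + 2 * B * lam B ^ (N / LL N Y t)) ^ LL N Y t - 1) ≤ 1 / 4 ∧
      ((4 ^ Y * (N ^ 3) ^ R : ℕ) : ℝ) ≤ (2 : ℝ) ^ (η * N) := by
  have hB0 : (2 : ℝ) ≤ B := by exact_mod_cast hB
  obtain ⟨k0, hk0, hk0'⟩ := exists_pow_lam B hB (1 / (156 * B)) (by positivity)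
  obtain ⟨k1, hk1, hk1'⟩ := exists_pow_lam B hB (Real.exp (-3)) (Real.exp_pos _)
  have hl0 := lam_nonneg B hB
  have hl1 := (lam_lt_one B hB).le
  have hk0r : (1 : ℝ) ≤ k0 := by exact_mod_cast hk0
  have hk1r : (1 : ℝ) ≤ k1 := by exact_mod_cast hk1
  obtain ⟨δ, hδ⟩ : ∃ δ : ℝ, δ = min (min (1 / (9 * (2 * (k1 : ℝ) + 1))) (1 / (23 * ((k0 : ℝ) + 1)))) (min 1 (η / 12)) := ⟨_, rfl⟩
  have d1 : δ ≤ 1 / (9 * (2 * k1 + 1)) := by rw [hδ]; exact (min_le_left _ _).trans (min_le_left _ _)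
  have d2 : δ ≤ 1 / (23 * (k0 + 1)) := by rw [hδ]; exact (min_le_left _ _).trans (min_le_right _ _)
  have d3 : δ ≤ 1 := by rw [hδ]; exact (min_le_right _ _).trans (min_le_left _ _)
  have d4 : δ ≤ η / 12 := by rw [hδ]; exact (min_le_right _ _).trans (min_le_right _ _)
  have d0 : 0 < δ := by
    rw [hδ]
    refine lt_min (lt_min (by positivity) (by positivity)) (lt_min one_pos (by positivity))
  refine ⟨δ, d0, d3, ?_⟩
  have hlog : Tendsto (fun N : ℕ => Real.log N) atTop atTop :=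
    Real.tendsto_log_atTop.comp tendsto_natCast_atTop_atTop
  have hcast : Tendsto (fun N : ℕ => (N : ℝ)) atTop atTop := tendsto_natCast_atTop_atTop
  have hdiv : Tendsto (fun N : ℕ => (N : ℝ) / Real.log N) atTop atTop := by
    have h1 : Tendsto (fun x : ℝ => x / Real.log x) atTop atTop := by
      have := Real.isLittleO_log_id_atTop
      have h2 := this.tendsto_div_nhds_zero
      have h3 : Tendsto (fun x : ℝ => (Real.log x / x)⁻¹) atTop atTop := by
        apply Tendsto.inv_tendsto_nhdsGT_zero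
        rw [tendsto_nhdsWithin_iff]
        refine ⟨h2, ?_⟩
        filter_upwards [eventually_gt_atTop (1 : ℝ)] with x hx
        exact div_pos (Real.log_pos hx) (by linarith)
      refine h3.congr' ?_
      filter_upwards with x
      rw [inv_div]
    exact h1.comp hcast
  filter_upwards [hlog.eventually_ge_atTop 10, hdiv.eventually_ge_atTop (1 / δ),
    hcast.eventually_ge_atTop (64 * B), eventually_ge_atTop 3] with N hT hND hNB hN3 Y R hY hR
  set T := Real.log N with hTdef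
  have hT0 : 0 < T := by linarith
  have hN0 : (0 : ℝ) < N := by exact_mod_cast (by omega : 0 < N)
  have hN1 : (1 : ℝ) ≤ N := by exact_mod_cast (by omega : 1 ≤ N)
  have hNexp : (N : ℝ) = Real.exp T := by rw [hTdef, Real.exp_log hN0]
  have hδN : 1 ≤ δ * N / T := by
    have h1 : 1 ≤ (N : ℝ) / T * δ := (div_le_iff₀ d0).1 hND
    calc 1 ≤ (N : ℝ) / T * δ := h1
      _ = δ * N / T := by ring
  set ℓ := Nat.clog 2 N with hℓ
  have hℓ1 : 1 ≤ ℓ := Nat.clog_pos (by norm_num) (by omega)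
  have hℓ3 : (ℓ : ℝ) ≤ 3 * T := clog_le N hN3
  have hδN1 : 1 ≤ δ * N := by
    have : δ * N / T ≤ δ * N := div_le_self (by positivity) (by linarith)
    linarith
  -- the lengths
  have hLL : ∀ t, (LL N Y t : ℝ) = 4 * Y + 6 * ℓ * t + 1 := by intro t; unfold LL; push_cast; rfl
  have hLpos : ∀ t, 0 < LL N Y t := fun t => by unfold LL; omega
  have hLR : ∀ t ≤ R, (LL N Y t : ℝ) ≤ 23 * (δ * N) := by
    intro t ht
    have h1 : (t : ℝ) ≤ R := by exact_mod_cast ht
    have h2 : (ℓ : ℝ) * t ≤ 3 * T * (δ * N / T) :=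
      mul_le_mul hℓ3 (h1.trans hR) (by positivity) (by positivity)
    have h3 : 3 * T * (δ * N / T) = 3 * (δ * N) := by field_simp
    have h4 : δ * N / T ≤ δ * N / 10 := div_le_div_of_nonneg_left (by positivity) (by norm_num) hT
    rw [hLL]
    nlinarith
  have hKge : ∀ (t : ℕ) (x : ℝ), (LL N Y t : ℝ) * (x + 1) ≤ N → x ≤ (N / LL N Y t : ℕ) := by
    intro t x hx
    have h1 : (0 : ℝ) < LL N Y t := by exact_mod_cast hLpos t
    have h2 : (N : ℝ) < LL N Y t * ((N / LL N Y t : ℕ) + 1) := by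
      exact_mod_cast Nat.lt_mul_div_succ N (hLpos t)
    have h3 := hx.trans_lt h2
    have h4 := lt_of_mul_lt_mul_left h3 h1.le
    linarith
  have hK0 : ∀ t ≤ R, k0 ≤ N / LL N Y t := by
    intro t ht
    have h1 := hKge t k0 (by
      calc (LL N Y t : ℝ) * (k0 + 1) ≤ 23 * (δ * N) * (k0 + 1) :=
            mul_le_mul_of_nonneg_right (hLR t ht) (by positivity)
        _ = (δ * (23 * (k0 + 1))) * N := by ring
        _ ≤ 1 * N := by
            refine mul_le_mul_of_nonneg_right ?_ hN0.le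
            rwa [le_div_iff₀ (by positivity)] at d2
        _ = N := one_mul _)
    exact_mod_cast h1
  refine ⟨fun t ht => hk0.trans (hK0 t ht), ?_, ?_⟩
  · -- the sum
    have hterm : ∀ t ∈ range (R + 1), (1 / (N : ℝ)) ^ t *
        ((1 + 2 * B * lam B ^ (N / LL N Y t)) ^ LL N Y t - 1) ≤ (1 / 8) * (1 / 2) ^ t := by
      intro t ht
      rw [mem_range] at ht
      have ht' : t ≤ R := by omega
      set K := N / LL N Y t with hKdef
      set x : ℝ := 2 * B * lam B ^ K with hx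
      have hx0 : 0 ≤ x := by rw [hx]; positivity
      have hLN : (LL N Y t : ℝ) ≤ 23 * N := by
        have := hLR t ht'
        nlinarith
      by_cases hc : 6 * ℓ * t ≤ 4 * Y
      · -- few large primes
        have h1 : (LL N Y t : ℝ) ≤ 9 * (δ * N / T) := by
          have h2 : (6 * ℓ * t : ℝ) ≤ 4 * Y := by exact_mod_cast hc
          rw [hLL]
          linarith
        set m := ⌈T⌉₊ with hm
        have hm1 : T ≤ m := Nat.le_ceil T
        have hm2 : (m : ℝ) < T + 1 := Nat.ceil_lt_add_one hT0.le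
        have h3 : ((k1 * m : ℕ) : ℝ) ≤ K := by
          apply hKge t
          push_cast
          calc (LL N Y t : ℝ) * (k1 * m + 1) ≤ 9 * (δ * N / T) * ((2 * k1 + 1) * T) := by
                refine mul_le_mul h1 ?_ (by positivity) (by positivity)
                nlinarith
            _ = (δ * (9 * (2 * k1 + 1))) * N := by field_simp
            _ ≤ 1 * N := by
                refine mul_le_mul_of_nonneg_right ?_ hN0.le
                rwa [le_div_iff₀ (by positivity)] at d1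
            _ = N := one_mul _
        have h4 : k1 * m ≤ K := by exact_mod_cast h3
        have h5 : lam B ^ K ≤ 1 / (N : ℝ) ^ 3 := by
          calc lam B ^ K ≤ lam B ^ (k1 * m) := pow_le_pow_of_le_one hl0 hl1 h4
            _ = (lam B ^ k1) ^ m := by rw [pow_mul]
            _ ≤ (Real.exp (-3)) ^ m := pow_le_pow_left₀ (by positivity) hk1' _
            _ = Real.exp (m * (-3)) := by rw [Real.exp_nat_mul]
            _ ≤ Real.exp (-(3 * T)) := Real.exp_le_exp.2 (by linarith)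
            _ = 1 / (N : ℝ) ^ 3 := by
                rw [Real.exp_neg, hNexp, ← Real.exp_nat_mul]
                norm_num
        exact term1 N B (LL N Y t) t x hx0 (by omega) hNB (by
          rw [hx]
          exact mul_le_mul_of_nonneg_left h5 (by positivity)) hLN
      · -- many large primes
        rw [not_le] at hc
        have ht1 : 1 ≤ t := by
          rcases Nat.eq_zero_or_pos t with h | h
          · rw [h] at hc; omega
          · exact h
        have ht1r : (1 : ℝ) ≤ t := by exact_mod_cast ht1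
        have hℓ1r : (1 : ℝ) ≤ ℓ := by exact_mod_cast hℓ1
        have h1 : (LL N Y t : ℝ) ≤ 13 * (ℓ * t) := by
          have h2 : (4 * Y : ℝ) < 6 * ℓ * t := by exact_mod_cast hc
          rw [hLL]
          nlinarith
        have h2 : x ≤ 1 / 78 := by
          have h3 : lam B ^ K ≤ 1 / (156 * B) :=
            (pow_le_pow_of_le_one hl0 hl1 (hK0 t ht')).trans hk0'
          rw [hx]
          calc 2 * B * lam B ^ K ≤ 2 * B * (1 / (156 * B)) := mul_le_mul_of_nonneg_left h3 (by positivity)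
            _ = 1 / 78 := by field_simp; norm_num
        have h3 : x * LL N Y t ≤ t * (T / 2) := by
          calc x * LL N Y t ≤ 1 / 78 * (13 * (3 * T * t)) := by
                refine mul_le_mul h2 (h1.trans ?_) (by positivity) (by positivity)
                have : (ℓ : ℝ) * t ≤ 3 * T * t := mul_le_mul_of_nonneg_right hℓ3 (by positivity)
                linarith
            _ = t * (T / 2) := by ring
        exact term2 N (LL N Y t) t T x hx0 hT hNexp ht1 h3
    refine (sum_le_sum hterm).trans ?_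
    rw [← mul_sum]
    have h1 := Summable.sum_le_tsum (range (R + 1)) (fun t _ => by positivity)
      (summable_geometric_two)
    rw [tsum_geometric_two] at h1
    linarith
  · -- the modulus
    have h1 : 4 ^ Y * (N ^ 3) ^ R ≤ 2 ^ (2 * Y + 3 * ℓ * R) := by
      have h2 : N ≤ 2 ^ ℓ := Nat.le_pow_clog (by norm_num) N
      rw [pow_add]
      refine Nat.mul_le_mul (le_of_eq (by rw [pow_mul]; norm_num)) ?_
      rw [← pow_mul]
      calc N ^ (3 * R) ≤ (2 ^ ℓ) ^ (3 * R) := Nat.pow_le_pow_left h2 _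
        _ = 2 ^ (3 * ℓ * R) := by rw [← pow_mul]; congr 1; ring
    have h2 : ((4 ^ Y * (N ^ 3) ^ R : ℕ) : ℝ) ≤ (2 : ℝ) ^ (2 * Y + 3 * ℓ * R) := by exact_mod_cast h1
    refine h2.trans ?_
    rw [← Real.rpow_natCast]
    apply Real.rpow_le_rpow_of_exponent_le (by norm_num)
    push_cast
    have h3 : (ℓ : ℝ) * R ≤ 3 * T * (δ * N / T) := mul_le_mul hℓ3 hR (by positivity) (by positivity)
    have h4 : 3 * T * (δ * N / T) = 3 * (δ * N) := by field_simp
    have h5 : δ * N / T ≤ δ * N / 10 := div_le_div_of_nonneg_left (by positivity) (by norm_num) hT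
    have h6 : 12 * (δ * N) ≤ η * N := by nlinarith
    nlinarith

end Pool.Agent.D0H92.AG
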