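import Pool.Agent.D0H92.AG.Par
import Pool.Agent.D0H92.AG.Num
import Pool.Agent.D0H92.AG.Cov
import Pool.Agent.D0H92.AG.Four

set_option autoImplicit false

/-!
# Prime-free intervals around the members of cubes
-/

namespace Pool.Agent.D0H92.AG

open Finset Filter

/-- many primes up to `N ^ 3` -/
lemma many_primes : ∀ᶠ N : ℕ in atTop, N ^ 2 + N ≤ ((range (N ^ 3 + 1)).filter Nat.Prime).card := by
  have hcast : Tendsto (fun N : ℕ => (N : ℝ)) atTop atTop := tendsto_natCast_atTop_atTop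
  have h := (Real.isLittleO_log_id_atTop.def (by norm_num : (0 : ℝ) < 1 / 100))
  filter_upwards [hcast.eventually h, eventually_ge_atTop 100] with N h1 h2
  have hN : (100 : ℝ) ≤ N := by exact_mod_cast h2
  have hN0 : (0 : ℝ) < N := by linarith
  have hl0 : 0 ≤ Real.log N := Real.log_nonneg (by linarith)
  rw [id, Real.norm_eq_abs, Real.norm_eq_abs, abs_of_nonneg hl0, abs_of_pos hN0] at h1
  have h3 := Chebyshev.psi_ge (N ^ 3)
  have h4 := Chebyshev.psi_le_primeCounting_mul_log (N ^ 3)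
  have h5 : Nat.primeCounting (N ^ 3) = ((range (N ^ 3 + 1)).filter Nat.Prime).card := by
    rw [Nat.primeCounting, Nat.primeCounting', Nat.count_eq_card_filter_range]
  rw [h5] at h4
  set π := ((range (N ^ 3 + 1)).filter Nat.Prime).card with hπ
  have h6 : Real.log ((N ^ 3 : ℕ) : ℝ) ≤ 3 * (1 / 100 * N) := by
    push_cast
    rw [Real.log_pow]
    push_cast
    linarith
  have h7 : Real.log (((N ^ 3 : ℕ) : ℝ) + 1) ≤ 1 / 10 * (N : ℝ) ^ 3 := by
    have h8 : Real.log (((N ^ 3 : ℕ) : ℝ) + 1) ≤ Real.log 2 + Real.log ((N ^ 3 : ℕ) : ℝ) := by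
      rw [← Real.log_mul (by norm_num) (by positivity)]
      apply Real.log_le_log (by positivity)
      have : (1 : ℝ) ≤ ((N ^ 3 : ℕ) : ℝ) := by exact_mod_cast Nat.one_le_pow _ _ (by omega)
      linarith
    have h9 := Real.log_two_lt_d9
    have h10 : (N : ℝ) ^ 3 ≥ 100 * 100 * N := by nlinarith [mul_pos hN0 hN0]
    nlinarith
  have h8 : (0.69 : ℝ) * (N : ℝ) ^ 3 ≤ ((N ^ 3 : ℕ) : ℝ) * Real.log 2 := by
    have := Real.log_two_gt_d9
    push_cast
    have h9 : 0 < (N : ℝ) ^ 3 := by positivity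
    nlinarith
  have h9 : (0.59 : ℝ) * (N : ℝ) ^ 3 ≤ π * (3 * (1 / 100 * N)) := by
    have h10 : (π : ℝ) * Real.log ((N ^ 3 : ℕ) : ℝ) ≤ π * (3 * (1 / 100 * N)) :=
      mul_le_mul_of_nonneg_left h6 (Nat.cast_nonneg _)
    have h11 := h3.trans h4
    linarith
  have h10 : (2 : ℝ) * (N : ℝ) ^ 2 ≤ π := by
    by_contra hcon
    rw [not_le] at hcon
    have : (π : ℝ) * (3 * (1 / 100 * N)) < 2 * (N : ℝ) ^ 2 * (3 * (1 / 100 * N)) :=
      mul_lt_mul_of_pos_right hcon (by positivity)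
    have h11 : 0 < (N : ℝ) ^ 3 := by positivity
    nlinarith
  have h11 : 2 * N ^ 2 ≤ π := by exact_mod_cast h10
  nlinarith

/-- the blocks of primes -/
lemma supply (D : ℕ) (hD : 1 ≤ D) : ∀ᶠ N : ℕ in atTop, ∀ Y R : ℕ, Y ≤ N → R ≤ N →
    ∃ p : Fin R → Fin N → ℕ, (∀ r i, (p r i).Prime) ∧ (∀ r i r' i', p r i = p r' i' → r = r' ∧ i = i') ∧
      (∀ r i, p r i ≤ N ^ 3) ∧ (∀ r i, Y < p r i) ∧ ∀ r i, ¬ p r i ∣ D := by
  filter_upwards [many_primes, eventually_ge_atTop D] with N h1 h2 Y R hY hR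
  set S := ((range (N ^ 3 + 1)).filter Nat.Prime).filter (fun q => N < q) with hS
  have hcard : R * N ≤ S.card := by
    have h3 := card_filter_add_card_filter_not (s := (range (N ^ 3 + 1)).filter Nat.Prime) (fun q => N < q)
    have h4 : (((range (N ^ 3 + 1)).filter Nat.Prime).filter (fun q => ¬ N < q)).card ≤ N := by
      have : ((range (N ^ 3 + 1)).filter Nat.Prime).filter (fun q => ¬ N < q) ⊆ Icc 1 N := by
        intro q hq
        rw [mem_filter, mem_filter] at hq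
        rw [mem_Icc]
        exact ⟨hq.1.2.one_lt.le, by omega⟩
      refine (card_le_card this).trans ?_
      rw [Nat.card_Icc]; omega
    have h5 : R * N ≤ N * N := Nat.mul_le_mul_right _ hR
    rw [← hS] at h3
    nlinarith
  have hmem : ∀ q ∈ S, q.Prime ∧ N < q ∧ q ≤ N ^ 3 := by
    intro q hq
    rw [hS, mem_filter, mem_filter, mem_range] at hq
    exact ⟨hq.1.2, hq.2, by omega⟩
  have hmem' : ∀ j, (S.orderEmbOfFin rfl j).Prime ∧ N < S.orderEmbOfFin rfl j ∧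
      S.orderEmbOfFin rfl j ≤ N ^ 3 := fun j => hmem _ (orderEmbOfFin_mem _ _ _)
  refine ⟨fun r i => S.orderEmbOfFin rfl (Fin.castLE hcard (finProdFinEquiv (r, i))), ?_, ?_, ?_, ?_, ?_⟩
  · exact fun r i => (hmem' _).1
  · intro r i r' i' h
    have h3 := (S.orderEmbOfFin rfl).injective h
    have h4 := Fin.castLE_injective hcard h3
    have h5 := finProdFinEquiv.injective h4
    exact Prod.mk.injEq _ _ _ _ ▸ h5
  · exact fun r i => (hmem' _).2.2
  · exact fun r i => hY.trans_lt (hmem' _).2.1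
  · intro r i h
    have h3 : S.orderEmbOfFin rfl (Fin.castLE hcard (finProdFinEquiv (r, i))) ≤ D :=
      Nat.le_of_dvd (by omega) h
    have h4 := (hmem' (Fin.castLE hcard (finProdFinEquiv (r, i)))).2.1
    omega

/-- the integers within `ρ` of `n` are not primes and have a prime factor `≤ w` -/
def Free (w : ℕ) (ρ : ℝ) (n : ℤ) : Prop :=
  ∀ m : ℤ, |(m : ℝ) - n| ≤ ρ → ¬ m.natAbs.Prime ∧ ∃ q : ℕ, q.Prime ∧ q ≤ w ∧ (q : ℤ) ∣ m

lemma mem_inj (a : ℤ) (D B : ℕ) (hD : 1 ≤ D) (hB : 2 ≤ B) : Function.Injective (mem a D B) := by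
  intro E E' h
  unfold mem at h
  have h1 : (D : ℤ) * ∑ j ∈ E, (B : ℤ) ^ j = D * ∑ j ∈ E', (B : ℤ) ^ j := by linarith
  have h2 := mul_left_cancel₀ (by exact_mod_cast (by omega : D ≠ 0)) h1
  have h3 : ∑ j ∈ E, B ^ j = ∑ j ∈ E', B ^ j := by exact_mod_cast h2
  exact geomSum_injective hB h3

lemma ev_pow (c : ℝ) : ∀ᶠ N : ℕ in atTop, c * (N : ℝ) ^ 4 ≤ (2 : ℝ) ^ ((N : ℝ) / 2) := by
  have h := tendsto_pow_const_div_const_pow_of_one_lt 4 (show (1 : ℝ) < 2 ^ (1 / 2 : ℝ) from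
    Real.one_lt_rpow (by norm_num) (by norm_num))
  have hev := h.eventually (gt_mem_nhds (show (0 : ℝ) < 1 / (|c| + 1) by positivity))
  filter_upwards [hev] with N hN
  have hp : (0 : ℝ) < (2 ^ (1 / 2 : ℝ) : ℝ) ^ N := by positivity
  have e1 : ((2 ^ (1 / 2 : ℝ) : ℝ)) ^ N = (2 : ℝ) ^ ((N : ℝ) / 2) := by
    rw [← Real.rpow_natCast, ← Real.rpow_mul (by norm_num)]
    congr 1
    ring
  rw [div_lt_div_iff₀ hp (by positivity), one_mul, e1] at hN
  have h3 : c * (N : ℝ) ^ 4 ≤ (N : ℝ) ^ 4 * (|c| + 1) := by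
    have := le_abs_self c
    have h4 : (0 : ℝ) ≤ (N : ℝ) ^ 4 := by positivity
    nlinarith
  linarith

/-- **Cubes**, if all prime divisors of `B` divide `D`. -/
theorem cube (B D : ℕ) (hB : 2 ≤ B) (hD : 1 ≤ D) (hBD : ∀ p, p.Prime → p ∣ B → p ∣ D) (η : ℝ)
    (hη : 0 < η) (hη1 : η ≤ 1 / 2) : ∃ κ : ℝ, 0 < κ ∧ ∀ᶠ N : ℕ in atTop, ∀ a : ℤ, ∃ S ⊆ (range N).powerset,
      (2 : ℝ) ^ ((1 - η) * N) ≤ (S.card : ℝ) ∧ ∀ E ∈ S, Free (N ^ 3) (κ * Rk N) (mem a D B E) := by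
  classical
  obtain ⟨δ, hδ, hδ1, hnum⟩ := num B hB (η / 2) (by positivity)
  obtain ⟨κ, hκ, hpar⟩ := par δ hδ D
  refine ⟨κ, hκ, ?_⟩
  have hcast : Tendsto (fun N : ℕ => (N : ℝ)) atTop atTop := tendsto_natCast_atTop_atTop
  have hlog : Tendsto (fun N : ℕ => Real.log N) atTop atTop := Real.tendsto_log_atTop.comp hcast
  have hlog2 : Tendsto (fun N : ℕ => Real.log (Real.log N)) atTop atTop := Real.tendsto_log_atTop.comp hlog
  have hlog3 : Tendsto (fun N : ℕ => Real.log (Real.log (Real.log N))) atTop atTop :=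
    Real.tendsto_log_atTop.comp hlog2
  have hpow4 : ∀ᶠ N : ℕ in atTop, 4 ≤ (2 : ℝ) ^ (η / 2 * N) := by
    have h1 : Tendsto (fun N : ℕ => η / 2 * (N : ℝ)) atTop atTop :=
      hcast.const_mul_atTop (by positivity)
    filter_upwards [h1.eventually_ge_atTop 2] with N hN
    calc (4 : ℝ) = 2 ^ (2 : ℝ) := by norm_num
      _ ≤ _ := Real.rpow_le_rpow_of_exponent_le (by norm_num) hN
  filter_upwards [hnum, hpar, supply D hD, hlog.eventually_ge_atTop 1, hlog2.eventually_ge_atTop 1,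
    hlog3.eventually_ge_atTop 1, ev_pow 4, hpow4, eventually_ge_atTop 2, hcast.eventually_ge_atTop (κ + 1)] with
    N h1 h2 h3 hT hu hv hp4 hp2 hN2 hNκ a
  obtain ⟨b, L, hL, hsurv⟩ := h2
  set T := Real.log N with hTdef
  set Y := ⌊δ * N / T⌋₊ with hYdef
  have hN0 : (0 : ℝ) < N := by exact_mod_cast (by omega : 0 < N)
  have hN1 : (1 : ℝ) ≤ N := by exact_mod_cast (by omega : 1 ≤ N)
  have hT0 : 0 < T := by linarith
  have hδN : δ * N / T ≤ N := by
    rw [div_le_iff₀ hT0]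
    nlinarith
  have hY1 : (Y : ℝ) ≤ δ * N / T := Nat.floor_le (by positivity)
  have hYN : Y ≤ N := by exact_mod_cast hY1.trans hδN
  set KK := (Icc 1 L).filter (fun k => ∀ q : ℕ, q.Prime → q ≤ Y → ¬ k ≡ b q [MOD q]) with hKK
  have hRN : KK.card ≤ N := by exact_mod_cast hsurv.trans hδN
  obtain ⟨hK1, hsum, hmod⟩ := h1 Y KK.card hY1 hsurv
  obtain ⟨p, hp1, hp2', hp3, hp4', hp5⟩ := h3 Y KK.card hYN hRN
  have F : Fam B D (P0 D Y) (N ^ 3) KK.card N p :=
    { pos := P0_pos D Y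
      cB := coprime_P0 hBD
      cD := coprime_P0 fun _ _ h => h
      pr := hp1
      inj := hp2'
      le := hp3
      c0 := fun r i => not_dvd_P0 (hp1 r i) (hp4' r i)
      pB := fun r i h => hp5 r i (hBD _ (hp1 r i) h)
      pD := hp5 }
  obtain ⟨ω, hω⟩ := exists_choice F hB (by omega) N (LL N Y) (fun t => N / LL N Y t)
    (fun t _ => LL_spec B N Y t _ hB (P0_le D Y)) hK1 (fun t _ => Nat.div_mul_le_self _ _)
  have hω' := hω.trans hsum
  obtain ⟨c, hc⟩ := cover Y hD F hp4' b ⌊κ * Rk N⌋₊ L (by omega) (KK.orderEmbOfFin rfl) (by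
    intro x hx hx2
    have hxK : x ∈ KK := by
      rw [hKK, mem_filter]
      exact ⟨hx, hx2⟩
    have : x ∈ Set.range (KK.orderEmbOfFin rfl) := by
      rw [range_orderEmbOfFin]
      exact hxK
    obtain ⟨r, hr⟩ := this
    exact ⟨r, hr⟩) a ω
  set P := Pm (P0 D Y) p ω with hP
  have hPpos : 0 < P := Pm_pos F ω
  have hcount := cube_count P hPpos a c D B N
  set S0 := (range N).powerset.filter (fun E => (P : ℤ) ∣ mem a D B E - c) with hS0
  set S1 := (range N).powerset.filter (fun E => |mem a D B E| ≤ (N : ℤ) ^ 4) with hS1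
  refine ⟨S0 \ S1, sdiff_subset.trans (filter_subset _ _), ?_, ?_⟩
  · -- the number of members
    have hP2 : (P : ℝ) ≤ (2 : ℝ) ^ (η / 2 * N) := by
      refine le_trans ?_ hmod
      have : P ≤ 4 ^ Y * (N ^ 3) ^ KK.card := by
        rw [hP]
        unfold Pm
        refine Nat.mul_le_mul (P0_le D Y) ?_
        refine (prod_le_pow_card _ _ _ fun r _ => F.le r _).trans (le_of_eq ?_)
        rw [card_univ, Fintype.card_fin]
      exact_mod_cast this
    have e1 : (3 / 4 : ℝ) * 2 ^ N ≤ P * S0.card := by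
      refine le_trans ?_ hcount
      have : (0 : ℝ) < 2 ^ N := by positivity
      nlinarith
    have e2 : (3 / 4 : ℝ) * (2 : ℝ) ^ (N : ℝ) ≤ (2 : ℝ) ^ (η / 2 * N) * S0.card := by
      rw [Real.rpow_natCast]
      exact e1.trans (mul_le_mul_of_nonneg_right hP2 (Nat.cast_nonneg _))
    have e3 : (2 : ℝ) ^ (N : ℝ) = (2 : ℝ) ^ (η / 2 * N) * ((2 : ℝ) ^ (η / 2 * N) * (2 : ℝ) ^ ((1 - η) * N)) := by
      rw [← Real.rpow_add (by norm_num), ← Real.rpow_add (by norm_num)]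
      congr 1
      ring
    have hpos : (0 : ℝ) < (2 : ℝ) ^ (η / 2 * N) := by positivity
    have e4 : (3 / 4 : ℝ) * ((2 : ℝ) ^ (η / 2 * N) * (2 : ℝ) ^ ((1 - η) * N)) ≤ S0.card := by
      rw [e3] at e2
      have : (2 : ℝ) ^ (η / 2 * N) * ((3 / 4 : ℝ) * ((2 : ℝ) ^ (η / 2 * N) * (2 : ℝ) ^ ((1 - η) * N))) ≤
          (2 : ℝ) ^ (η / 2 * N) * S0.card := by linarith
      exact le_of_mul_le_mul_left this hpos
    have hpos2 : (0 : ℝ) < (2 : ℝ) ^ ((1 - η) * N) := by positivity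
    have e5 : 3 * (2 : ℝ) ^ ((1 - η) * N) ≤ S0.card := by
      nlinarith
    have hS1card : (S1.card : ℝ) ≤ 4 * (N : ℝ) ^ 4 := by
      have h5 : S1.card ≤ (Icc (-(N : ℤ) ^ 4) ((N : ℤ) ^ 4)).card := by
        refine card_le_card_of_injOn (mem a D B) ?_ ((mem_inj a D B hD hB).injOn)
        intro E hE
        rw [mem_coe, hS1, mem_filter, abs_le] at hE
        rw [mem_coe, mem_Icc]
        exact hE.2
      rw [Int.card_Icc] at h5
      have h6 : ((N : ℤ) ^ 4 + 1 - -(N : ℤ) ^ 4).toNat = 2 * N ^ 4 + 1 := by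
        have : (N : ℤ) ^ 4 + 1 - -(N : ℤ) ^ 4 = ((2 * N ^ 4 + 1 : ℕ) : ℤ) := by push_cast; ring
        rw [this, Int.toNat_natCast]
      rw [h6] at h5
      have h7 : (S1.card : ℝ) ≤ 2 * (N : ℝ) ^ 4 + 1 := by exact_mod_cast h5
      have h8 : (1 : ℝ) ≤ (N : ℝ) ^ 4 := one_le_pow₀ hN1
      linarith
    have e6 : 4 * (N : ℝ) ^ 4 ≤ (2 : ℝ) ^ ((1 - η) * N) := by
      refine hp4.trans (Real.rpow_le_rpow_of_exponent_le (by norm_num) ?_)
      nlinarith
    have e7 : (S0.card : ℝ) ≤ (S0 \ S1).card + S1.card := by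
      exact_mod_cast card_le_card_sdiff_add_card
    linarith
  · -- the intervals
    intro E hE
    rw [Finset.mem_sdiff, hS0, mem_filter, hS1, mem_filter] at hE
    obtain ⟨⟨hE1, hE2⟩, hE3⟩ := hE
    have hE4 : (N : ℤ) ^ 4 < |mem a D B E| := by
      by_contra hcon
      exact hE3 ⟨hE1, not_lt.1 hcon⟩
    intro m hm
    have hRk0 : 0 ≤ κ * Rk N := (abs_nonneg _).trans hm
    have hm' : |m - mem a D B E| ≤ (⌊κ * Rk N⌋₊ : ℤ) := by
      have h5 : ((|m - mem a D B E| : ℤ) : ℝ) ≤ κ * Rk N := by push_cast; exact hm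
      have h6 : |m - mem a D B E| ≤ ⌊κ * Rk N⌋ := Int.le_floor.2 h5
      rwa [← Int.natCast_floor_eq_floor hRk0] at h6
    obtain ⟨q, hq1, hq2, hq3⟩ := hc (mem a D B E) (by unfold mem; simp) hE2 m hm'
    have hqN : q ≤ N ^ 3 := by
      rcases hq2 with h | h
      · refine (h.trans hYN).trans ?_
        calc N = N ^ 1 := (pow_one N).symm
          _ ≤ N ^ 3 := Nat.pow_le_pow_right (by omega) (by norm_num)
      · exact h
    refine ⟨?_, q, hq1, hqN, hq3⟩
    intro hmp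
    have h5 : q = m.natAbs := (Nat.prime_dvd_prime_iff_eq hq1 hmp).1 (Int.natCast_dvd.1 hq3)
    have h6 : |m| ≤ (N : ℤ) ^ 3 := by
      rw [← Int.natCast_natAbs, ← h5]
      exact_mod_cast hqN
    -- the size of the window
    have hRk : Rk N ≤ (N : ℝ) ^ 2 := by
      have e1 : Rk N = N * T * Real.log (Real.log T) / (Real.log T) ^ 2 := rfl
      have hvu : Real.log (Real.log T) ≤ Real.log T := by
        have := Real.log_le_sub_one_of_pos (show 0 < Real.log T by linarith)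
        linarith
      rw [e1, div_le_iff₀ (by positivity)]
      have hTN : T ≤ N := by
        have := Real.log_le_sub_one_of_pos hN0
        linarith
      have h7 : Real.log (Real.log T) ≤ (Real.log T) ^ 2 := by nlinarith
      calc (N : ℝ) * T * Real.log (Real.log T) ≤ N * T * (Real.log T) ^ 2 :=
            mul_le_mul_of_nonneg_left h7 (by positivity)
        _ ≤ N * N * (Real.log T) ^ 2 := by
            refine mul_le_mul_of_nonneg_right ?_ (by positivity)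
            exact mul_le_mul_of_nonneg_left hTN hN0.le
        _ = (N : ℝ) ^ 2 * (Real.log T) ^ 2 := by ring
    have h7 : (|mem a D B E| : ℝ) ≤ |(m : ℝ)| + κ * (N : ℝ) ^ 2 := by
      have h8 : ((mem a D B E : ℤ) : ℝ) = m - (m - mem a D B E) := by ring
      rw [h8]
      refine (abs_sub _ _).trans ?_
      have h9 : κ * Rk N ≤ κ * (N : ℝ) ^ 2 := mul_le_mul_of_nonneg_left hRk hκ.le
      linarith
    have h8 : (|(m : ℝ)|) ≤ (N : ℝ) ^ 3 := by exact_mod_cast h6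
    have h9 : (N : ℝ) ^ 4 < |((mem a D B E : ℤ) : ℝ)| := by exact_mod_cast hE4
    have h10 : (N : ℝ) ^ 3 + κ * (N : ℝ) ^ 2 ≤ (N : ℝ) ^ 4 := by
      have h11 : (N : ℝ) ^ 3 + κ * (N : ℝ) ^ 2 ≤ (N : ℝ) ^ 3 * (1 + κ) := by
        have : (N : ℝ) ^ 2 ≤ (N : ℝ) ^ 3 := pow_le_pow_right₀ hN1 (by norm_num)
        nlinarith
      have h12 : (N : ℝ) ^ 3 * (1 + κ) ≤ (N : ℝ) ^ 3 * N :=
        mul_le_mul_of_nonneg_left (by linarith) (by positivity)
      calc (N : ℝ) ^ 3 + κ * (N : ℝ) ^ 2 ≤ (N : ℝ) ^ 3 * (1 + κ) := h11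
        _ ≤ (N : ℝ) ^ 3 * N := h12
        _ = (N : ℝ) ^ 4 := by ring
    linarith

end Pool.Agent.D0H92.AG
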