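import Pool.Agent.D0H92.AG.Cube
import Pool.Agent.D0H92.AG.Auto

set_option autoImplicit false

/-!
# The final theorems
-/

namespace Pool.Agent.D0H92.AG

open Finset Filter

/-- comparison of the values of Rankin's function -/
lemma Rk_compare (C : ℝ) (hC : 1 ≤ C) : ∃ t₀ : ℝ, ∀ t s : ℝ, t₀ ≤ t → t ≤ s → s ≤ C * t →
    0 < Rk t ∧ Rk s ≤ 4 * C * Rk t := by
  have h1 := Real.tendsto_log_atTop
  have h2 : Tendsto (fun x : ℝ => Real.log (Real.log x)) atTop atTop := h1.comp h1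
  have h3 : Tendsto (fun x : ℝ => Real.log (Real.log (Real.log x))) atTop atTop := h1.comp h2
  obtain ⟨t₀, ht₀⟩ := eventually_atTop.1 ((eventually_ge_atTop (1 : ℝ)).and
    ((h1.eventually_ge_atTop (Real.log C + 1)).and ((h2.eventually_ge_atTop 1).and
      (h3.eventually_ge_atTop 1))))
  refine ⟨t₀, fun t s ht hts hs => ?_⟩
  obtain ⟨a1, a2, a3, a4⟩ := ht₀ t ht
  set u := Real.log t with hu
  set v := Real.log u with hv
  set w := Real.log v with hw
  have hCl : 0 ≤ Real.log C := Real.log_nonneg hC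
  have hu1 : 1 ≤ u := by linarith
  have hu0 : 0 < u := by linarith
  have hv0 : 0 < v := by linarith
  have ht0 : 0 < t := by linarith
  have hs0 : 0 < s := by linarith
  have b1 : u ≤ Real.log s := Real.log_le_log ht0 hts
  have b2 : Real.log s ≤ 2 * u := by
    have := Real.log_le_log hs0 hs
    rw [Real.log_mul (by linarith) ht0.ne'] at this
    linarith
  have hls : 0 < Real.log s := by linarith
  have c1 : v ≤ Real.log (Real.log s) := Real.log_le_log hu0 b1
  have l2 := Real.log_two_lt_d9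
  have c2 : Real.log (Real.log s) ≤ 2 * v := by
    have := Real.log_le_log hls b2
    rw [Real.log_mul (by norm_num) hu0.ne'] at this
    linarith
  have d2 : Real.log (Real.log (Real.log s)) ≤ 2 * w := by
    have := Real.log_le_log (by linarith : 0 < Real.log (Real.log s)) c2
    rw [Real.log_mul (by norm_num) hv0.ne'] at this
    linarith
  have d1 : w ≤ Real.log (Real.log (Real.log s)) := Real.log_le_log hv0 c1
  have e1 : Rk t = t * u * w / v ^ 2 := rfl
  have e2 : Rk s = s * Real.log s * Real.log (Real.log (Real.log s)) / (Real.log (Real.log s)) ^ 2 := rfl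
  have hw0 : 0 < w := by linarith
  refine ⟨by rw [e1]; positivity, ?_⟩
  rw [e1, e2]
  calc s * Real.log s * Real.log (Real.log (Real.log s)) / (Real.log (Real.log s)) ^ 2
      ≤ (C * t) * (2 * u) * (2 * w) / v ^ 2 := by
        refine div_le_div₀ (by positivity) ?_ (by positivity) (pow_le_pow_left₀ hv0.le c1 2)
        refine mul_le_mul (mul_le_mul hs b2 hls.le (by positivity)) d2 (by linarith) (by positivity)
    _ = 4 * C * (t * u * w / v ^ 2) := by ring

/-- no integer within `ρ` of `n` is a prime up to sign, and each of them has a prime factor `≤ w` -/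
def GapAt (ρ w : ℝ) (n : ℤ) : Prop :=
  ∀ m : ℤ, |(m : ℝ) - n| ≤ ρ → ¬ m.natAbs.Prime ∧ ∃ q : ℕ, q.Prime ∧ (q : ℝ) ≤ w ∧ (q : ℤ) ∣ m

lemma gapAt_of_free {w : ℕ} {ρ ρ' w' : ℝ} {n : ℤ} (h : Free w ρ n) (hρ : ρ' ≤ ρ) (hw : (w : ℝ) ≤ w') :
    GapAt ρ' w' n := by
  intro m hm
  obtain ⟨h1, q, h2, h3, h4⟩ := h m (hm.trans hρ)
  exact ⟨h1, q, h2, le_trans (by exact_mod_cast h3) hw, h4⟩

/-- **All cubes.** -/
theorem cubes (B D : ℕ) (hB : 2 ≤ B) (hD : 1 ≤ D) (η : ℝ) (hη : 0 < η) : ∃ κ : ℝ, 0 < κ ∧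
    ∀ᶠ N : ℕ in atTop, ∀ a : ℤ, (2 : ℝ) ^ ((1 - η) * N) ≤
      ({E : Finset ℕ | E ⊆ range N ∧ GapAt (κ * Rk N) ((N : ℝ) ^ 3) (a + D * ∑ j ∈ E, (B : ℤ) ^ j)}.ncard : ℝ) := by
  classical
  obtain ⟨η', hη'⟩ : ∃ η', η' = min (η / 2) (1 / 2) := ⟨_, rfl⟩
  have hη'0 : 0 < η' := by rw [hη']; exact lt_min (by positivity) (by norm_num)
  have hη'1 : η' ≤ 1 / 2 := by rw [hη']; exact min_le_right _ _
  have hη'2 : η' ≤ η / 2 := by rw [hη']; exact min_le_left _ _
  obtain ⟨κ, hκ, h⟩ := cube B (D * B) hB (Nat.mul_pos hD (by omega))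
    (fun p _ hp => hp.mul_left D) η' hη'0 hη'1
  obtain ⟨t₀, hR⟩ := Rk_compare 2 (by norm_num)
  refine ⟨κ / 8, by positivity, ?_⟩
  have hcast : Tendsto (fun N : ℕ => (N : ℝ)) atTop atTop := tendsto_natCast_atTop_atTop
  have h' := (tendsto_sub_atTop_nat 1).eventually h
  filter_upwards [h', eventually_ge_atTop 2, hcast.eventually_ge_atTop (t₀ + 1),
    hcast.eventually_ge_atTop (2 / η)] with N h1 hN2 hN3 hN4 a
  obtain ⟨S, hS1, hS2, hS3⟩ := h1 a
  have hN1 : ((N - 1 : ℕ) : ℝ) = N - 1 := by push_cast [Nat.cast_sub (by omega : 1 ≤ N)]; ring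
  have hN2' : (2 : ℝ) ≤ N := by exact_mod_cast hN2
  obtain ⟨hR1, hR2⟩ := hR ((N - 1 : ℕ) : ℝ) N (by rw [hN1]; linarith) (by rw [hN1]; linarith)
    (by rw [hN1]; linarith)
  have hfin : {E : Finset ℕ | E ⊆ range N ∧
      GapAt (κ / 8 * Rk N) ((N : ℝ) ^ 3) (a + D * ∑ j ∈ E, (B : ℤ) ^ j)}.Finite :=
    (range N).powerset.finite_toSet.subset fun E hE => by
      rw [mem_coe, mem_powerset]
      exact hE.1
  have hsub : ((S.image fun E => E.map (addRightEmbedding 1) : Finset (Finset ℕ)) : Set (Finset ℕ)) ⊆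
      {E : Finset ℕ | E ⊆ range N ∧
        GapAt (κ / 8 * Rk N) ((N : ℝ) ^ 3) (a + D * ∑ j ∈ E, (B : ℤ) ^ j)} := by
    intro E' hE'
    rw [mem_coe, mem_image] at hE'
    obtain ⟨E, hE, rfl⟩ := hE'
    refine ⟨?_, ?_⟩
    · intro j hj
      rw [Finset.mem_map] at hj
      obtain ⟨i, hi, rfl⟩ := hj
      have := mem_range.1 (mem_powerset.1 (hS1 hE) hi)
      rw [mem_range]
      change i + 1 < N
      omega
    · have e1 : (a + D * ∑ j ∈ E.map (addRightEmbedding 1), (B : ℤ) ^ j : ℤ) = mem a (D * B) B E := by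
        unfold mem
        rw [sum_map]
        simp only [addRightEmbedding_apply, pow_succ, ← Finset.sum_mul]
        push_cast
        ring
      rw [e1]
      refine gapAt_of_free (hS3 E hE) ?_ ?_
      · calc κ / 8 * Rk N ≤ κ / 8 * (4 * 2 * Rk ((N - 1 : ℕ) : ℝ)) :=
              mul_le_mul_of_nonneg_left hR2 (by positivity)
          _ = κ * Rk ((N - 1 : ℕ) : ℝ) := by ring
      · have : (N - 1) ^ 3 ≤ N ^ 3 := Nat.pow_le_pow_left (by omega) 3
        exact_mod_cast this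
  have hcard := Set.ncard_le_ncard hsub hfin
  rw [Set.ncard_coe_finset, card_image_of_injective _ (Finset.map_injective _)] at hcard
  calc (2 : ℝ) ^ ((1 - η) * N) ≤ (2 : ℝ) ^ ((1 - η') * ((N - 1 : ℕ) : ℝ)) := by
        apply Real.rpow_le_rpow_of_exponent_le (by norm_num)
        rw [hN1]
        have h5 : 2 ≤ η * N := by
          rw [div_le_iff₀ hη] at hN4
          linarith
        nlinarith
    _ ≤ (S.card : ℝ) := hS2
    _ ≤ _ := by exact_mod_cast hcard

/-- from the growth of the set to the growth of the number of words -/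
lemma exists_growth {σ : Type} [Fintype σ] (b : ℕ) (hb : 2 ≤ b) (M : DFA ℕ σ) (K : ℕ)
    (hS : ∀ k : ℕ, ∃ᶠ N : ℕ in atTop,
      Real.log N ^ k < ({v : ℕ | v < N ∧ Nat.digits b v ∈ M.accepts}.ncard : ℝ)) :
    ∃ m : ℕ, ((m + 1) * b) ^ K < {v : ℕ | v < b ^ m ∧ Nat.digits b v ∈ M.accepts}.ncard := by
  have hlog : Tendsto (fun N : ℕ => Real.log N) atTop atTop :=
    Real.tendsto_log_atTop.comp tendsto_natCast_atTop_atTop
  have hb0 : (0 : ℝ) < b := by exact_mod_cast (by omega : 0 < b)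
  obtain ⟨N, hN, h1, h2, h3⟩ := ((hS (K + 1)).and_eventually
    ((hlog.eventually_ge_atTop ((4 * b : ℝ) ^ K)).and
      ((hlog.eventually_ge_atTop 2).and (eventually_ge_atTop 1)))).exists
  refine ⟨Nat.log b N + 1, ?_⟩
  set m := Nat.log b N + 1 with hm
  have hNm : N < b ^ m := Nat.lt_pow_succ_log_self (by omega) N
  have hfin : {v : ℕ | v < b ^ m ∧ Nat.digits b v ∈ M.accepts}.Finite :=
    (Set.finite_lt_nat (b ^ m)).subset fun v hv => hv.1
  have hle : {v : ℕ | v < N ∧ Nat.digits b v ∈ M.accepts}.ncard ≤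
      {v : ℕ | v < b ^ m ∧ Nat.digits b v ∈ M.accepts}.ncard :=
    Set.ncard_le_ncard (fun v hv => ⟨hv.1.trans hNm, hv.2⟩) hfin
  have hm1 : ((m : ℝ) + 1) ≤ 4 * Real.log N := by
    have e1 : b ^ Nat.log b N ≤ N := Nat.pow_log_le_self b (by omega)
    have e2 : (Nat.log b N : ℝ) * Real.log 2 ≤ Real.log N := by
      calc (Nat.log b N : ℝ) * Real.log 2 ≤ (Nat.log b N : ℝ) * Real.log b := by
            refine mul_le_mul_of_nonneg_left ?_ (Nat.cast_nonneg _)
            exact Real.log_le_log (by norm_num) (by exact_mod_cast hb)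
        _ = Real.log ((b ^ Nat.log b N : ℕ) : ℝ) := by push_cast; rw [Real.log_pow]
        _ ≤ Real.log N := Real.log_le_log (by positivity) (by exact_mod_cast e1)
    have e3 := Real.log_two_gt_d9
    have e4 : (m : ℝ) = Nat.log b N + 1 := by rw [hm]; push_cast; ring
    rw [e4]
    have e5 : (0 : ℝ) ≤ Nat.log b N := Nat.cast_nonneg _
    nlinarith
  have h4 : (((m + 1) * b) ^ K : ℝ) ≤ Real.log N ^ (K + 1) := by
    calc (((m + 1) * b) ^ K : ℝ) ≤ (4 * Real.log N * b) ^ K := by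
          apply pow_le_pow_left₀ (by positivity)
          exact mul_le_mul_of_nonneg_right hm1 hb0.le
      _ = (4 * b) ^ K * Real.log N ^ K := by rw [← mul_pow]; congr 1; ring
      _ ≤ Real.log N * Real.log N ^ K := mul_le_mul_of_nonneg_right h1 (pow_nonneg (by linarith) _)
      _ = Real.log N ^ (K + 1) := by rw [pow_succ]; ring
  have h5 : ((((m + 1) * b) ^ K : ℕ) : ℝ) <
      ({v : ℕ | v < b ^ m ∧ Nat.digits b v ∈ M.accepts}.ncard : ℝ) := by
    push_cast
    calc (((m : ℝ) + 1) * b) ^ K ≤ Real.log N ^ (K + 1) := h4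
      _ < _ := hN
      _ ≤ _ := by exact_mod_cast hle
  exact_mod_cast h5

/-- **Automatic sets.** -/
theorem automatic {σ : Type} [Finite σ] (b : ℕ) (hb : 2 ≤ b) (M : DFA ℕ σ)
    (hS : ∀ k : ℕ, ∃ᶠ N : ℕ in atTop,
      Real.log N ^ k < ({v : ℕ | v < N ∧ Nat.digits b v ∈ M.accepts}.ncard : ℝ)) (g : ℕ) (hg : 1 ≤ g) :
    ∃ κ δ : ℝ, 0 < κ ∧ 0 < δ ∧ ∀ᶠ x : ℝ in atTop, ∀ c : ℤ, x ^ δ ≤
      ({n : ℕ | (n : ℝ) ≤ x ∧ Nat.digits b n ∈ M.accepts ∧
        GapAt (κ * Rk (Real.log x)) (Real.log x ^ 3) (g * n + c)}.ncard : ℝ) := by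
  classical
  have := Fintype.ofFinite σ
  obtain ⟨m, hm⟩ := exists_growth b hb M (Fintype.card (σ × σ)) hS
  obtain ⟨l, D, m1, m2, hl, hD, hpD, hcube⟩ := aut_cube b hb M m hm
  have hB : 2 ≤ b ^ l := by
    calc 2 ≤ b := hb
      _ = b ^ 1 := (pow_one b).symm
      _ ≤ b ^ l := Nat.pow_le_pow_right (by omega) hl
  obtain ⟨κ, hκ, h⟩ := cube (b ^ l) (g * D) hB (Nat.mul_pos hg hD)
    (fun p hp hpb => (hpD p hp (hp.dvd_of_dvd_pow hpb)).mul_left g) (1 / 2) (by norm_num) le_rfl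
  have hlb : (0.69 : ℝ) ≤ Real.log b := by
    have h1 := Real.log_two_gt_d9
    have h2 := Real.log_le_log (by norm_num : (0 : ℝ) < 2) (by exact_mod_cast hb : (2 : ℝ) ≤ b)
    linarith
  have hl1 : (1 : ℝ) ≤ l := by exact_mod_cast hl
  set A : ℝ := l * Real.log b with hA
  have hA1 : (0.69 : ℝ) ≤ A := by rw [hA]; nlinarith
  obtain ⟨t₀, hR⟩ := Rk_compare (4 * A) (by linarith)
  refine ⟨κ / (16 * A), 1 / (16 * A), by positivity, by positivity, ?_⟩
  -- the choice of `N`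
  have hfl : Tendsto (fun x : ℝ => ⌊Real.log x / (2 * A)⌋₊) atTop atTop :=
    tendsto_nat_floor_atTop.comp (Real.tendsto_log_atTop.atTop_div_const (by positivity))
  have hfl' : Tendsto (fun x : ℝ => ((⌊Real.log x / (2 * A)⌋₊ : ℕ) : ℝ)) atTop atTop :=
    tendsto_natCast_atTop_atTop.comp hfl
  filter_upwards [hfl.eventually h, hfl'.eventually_ge_atTop t₀, hfl'.eventually_ge_atTop 1,
    Real.tendsto_log_atTop.eventually_ge_atTop (2 * (m1 + m2) * Real.log b),
    eventually_gt_atTop 1] with x h1 h2 h3 h4 hx1 c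
  set N := ⌊Real.log x / (2 * A)⌋₊ with hN
  have hx0 : 0 < x := by linarith
  have hlx : 0 < Real.log x := Real.log_pos hx1
  have hN1 : (N : ℝ) ≤ Real.log x / (2 * A) := Nat.floor_le (by positivity)
  have hN2 : Real.log x / (2 * A) < N + 1 := Nat.lt_floor_add_one _
  have hN3 : Real.log x ≤ 4 * A * N := by
    rw [div_lt_iff₀ (by positivity)] at hN2
    nlinarith
  have hN4 : (N : ℝ) ≤ Real.log x := by
    refine hN1.trans (div_le_self hlx.le ?_)
    linarith
  obtain ⟨a, ha⟩ := hcube N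
  obtain ⟨S, hS1, hS2, hS3⟩ := h1 (g * a + c)
  obtain ⟨hR1, hR2⟩ := hR N (Real.log x) h2 hN4 hN3
  set f : Finset ℕ → ℕ := fun E => a + D * (∑ j ∈ E, (b ^ l) ^ j) with hf
  have hbx : ∀ E ⊆ range N, (f E : ℝ) ≤ x := by
    intro E hE
    have e1 := (ha E hE).1
    have e2 : (f E : ℝ) ≤ ((b ^ (m1 + l * N + m2) : ℕ) : ℝ) := by exact_mod_cast e1.le
    refine e2.trans ?_
    have hb0 : (0 : ℝ) < b := by exact_mod_cast (by omega : 0 < b)
    rw [← Real.log_le_log_iff (by positivity) hx0]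
    push_cast
    rw [Real.log_pow]
    push_cast
    have e3 : (N : ℝ) * (2 * A) ≤ Real.log x := by rwa [le_div_iff₀ (by positivity)] at hN1
    have e4 : ((m1 : ℝ) + l * N + m2) * Real.log b = (m1 + m2) * Real.log b + N * A := by rw [hA]; ring
    rw [e4]
    linarith
  have hfin : {n : ℕ | (n : ℝ) ≤ x ∧ Nat.digits b n ∈ M.accepts ∧
      GapAt (κ / (16 * A) * Rk (Real.log x)) (Real.log x ^ 3) (g * n + c)}.Finite :=
    (Set.finite_le_nat ⌊x⌋₊).subset fun n hn => Nat.le_floor hn.1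
  have hsub : ((S.image f : Finset ℕ) : Set ℕ) ⊆ {n : ℕ | (n : ℝ) ≤ x ∧ Nat.digits b n ∈ M.accepts ∧
      GapAt (κ / (16 * A) * Rk (Real.log x)) (Real.log x ^ 3) (g * n + c)} := by
    intro n hn
    rw [mem_coe, mem_image] at hn
    obtain ⟨E, hE, rfl⟩ := hn
    have hEr := mem_powerset.1 (hS1 hE)
    refine ⟨hbx E hEr, (ha E hEr).2, ?_⟩
    have e1 : ((g : ℤ) * ((f E : ℕ) : ℤ) + c : ℤ) = mem (g * a + c) (g * D) (b ^ l) E := by
      rw [hf]
      unfold mem
      push_cast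
      ring
    rw [e1]
    refine gapAt_of_free (hS3 E hE) ?_ ?_
    · calc κ / (16 * A) * Rk (Real.log x) ≤ κ / (16 * A) * (4 * (4 * A) * Rk N) :=
            mul_le_mul_of_nonneg_left hR2 (by positivity)
        _ = κ * Rk N := by field_simp; ring
    · push_cast
      exact pow_le_pow_left₀ (Nat.cast_nonneg _) hN4 3
  have hinj : Set.InjOn f S := by
    intro E _ E' _ heq
    have e1 : D * (∑ j ∈ E, (b ^ l) ^ j) = D * (∑ j ∈ E', (b ^ l) ^ j) := Nat.add_left_cancel heq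
    have e2 := Nat.eq_of_mul_eq_mul_left hD e1
    exact geomSum_injective hB e2
  have hcard := Set.ncard_le_ncard hsub hfin
  rw [Set.ncard_coe_finset, card_image_of_injOn hinj] at hcard
  calc x ^ (1 / (16 * A)) = Real.exp (Real.log x * (1 / (16 * A))) := by rw [Real.rpow_def_of_pos hx0]
    _ ≤ Real.exp (Real.log 2 * ((1 - 1 / 2) * N)) := by
        apply Real.exp_le_exp.2
        have e1 := Real.log_two_gt_d9
        have e2 : Real.log x * (1 / (16 * A)) ≤ 4 * A * N * (1 / (16 * A)) :=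
          mul_le_mul_of_nonneg_right hN3 (by positivity)
        have e3 : 4 * A * N * (1 / (16 * A)) = N / 4 := by field_simp; norm_num
        nlinarith
    _ = (2 : ℝ) ^ ((1 - 1 / 2 : ℝ) * N) := by rw [Real.rpow_def_of_pos (by norm_num)]
    _ ≤ (S.card : ℝ) := hS2
    _ ≤ _ := by exact_mod_cast hcard

end Pool.Agent.D0H92.AG
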