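import Mathlib

set_option autoImplicit false

/-!
# Sums over fractions of products of cosines along a geometric progression

The product `∏_{j < N} |cos (π B^j θ)|`, summed over all reduced fractions `θ` with denominators in a set of
integers `≤ X` prime to `B`, is at most `(1 + 2 B λ^K)^L - 1` with `λ = cos (π / (2 B))` if `X^2 < B^L` and
`K L ≤ N`.
-/

namespace Pool.Agent.D0H92.AG

open Finset

/-- the local factor `|cos (π θ)|` -/
noncomputable def cf (θ : ℝ) : ℝ := |Real.cos (Real.pi * θ)|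

lemma cf_nonneg (θ : ℝ) : 0 ≤ cf θ := abs_nonneg _

lemma cf_le_one (θ : ℝ) : cf θ ≤ 1 := Real.abs_cos_le_one _

lemma cf_add_int (θ : ℝ) (n : ℤ) : cf (θ + n) = cf θ := by
  unfold cf
  rw [mul_add, mul_comm Real.pi (n : ℝ), Real.cos_add_int_mul_pi, abs_mul]
  have : |(-1 : ℝ) ^ n| = 1 := by
    rcases Int.even_or_odd n with h | h
    · rw [h.neg_one_zpow, abs_one]
    · rw [h.neg_one_zpow, abs_neg, abs_one]
  rw [this, one_mul]

lemma cf_round (θ : ℝ) : cf θ = Real.cos (Real.pi * |θ - round θ|) := by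
  have h1 : cf θ = cf (θ - round θ) := by
    have := cf_add_int (θ - round θ) (round θ)
    rw [← this]; congr 1; ring
  have h2 := abs_sub_round θ
  rw [h1]
  unfold cf
  have h3 : Real.cos (Real.pi * (θ - round θ)) = Real.cos (Real.pi * |θ - round θ|) := by
    rw [← Real.cos_abs, abs_mul, abs_of_pos Real.pi_pos]
  rw [h3, abs_of_nonneg]
  apply Real.cos_nonneg_of_mem_Icc
  constructor
  · have := Real.pi_pos
    have := abs_nonneg (θ - round θ)
    nlinarith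
  · have := Real.pi_pos
    nlinarith

/-- the value of `|cos (π θ)|` at distance at least `1 / (2 B)` from the integers is at most this -/
noncomputable def lam (B : ℕ) : ℝ := Real.cos (Real.pi / (2 * B))

lemma lam_nonneg (B : ℕ) (hB : 2 ≤ B) : 0 ≤ lam B := by
  unfold lam
  apply Real.cos_nonneg_of_mem_Icc
  have h1 : (2 : ℝ) ≤ B := by exact_mod_cast hB
  have := Real.pi_pos
  constructor
  · have : 0 ≤ Real.pi / (2 * B) := by positivity
    linarith
  · rw [div_le_div_iff₀ (by positivity) (by norm_num)]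
    nlinarith

lemma lam_lt_one (B : ℕ) (hB : 2 ≤ B) : lam B < 1 := by
  unfold lam
  have h1 : (2 : ℝ) ≤ B := by exact_mod_cast hB
  have hp := Real.pi_pos
  rw [← Real.cos_zero]
  apply Real.cos_lt_cos_of_nonneg_of_le_pi_div_two le_rfl
  · rw [div_le_div_iff₀ (by positivity) (by norm_num)]
    nlinarith
  · positivity

lemma cf_far (B : ℕ) (hB : 2 ≤ B) (θ : ℝ) (h : 1 ≤ 2 * B * |θ - round θ|) : cf θ ≤ lam B := by
  rw [cf_round, lam]
  have h1 : (2 : ℝ) ≤ B := by exact_mod_cast hB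
  have hp := Real.pi_pos
  have h2 := abs_sub_round θ
  apply Real.cos_le_cos_of_nonneg_of_le_pi
  · positivity
  · nlinarith
  · rw [div_le_iff₀ (by positivity)]
    calc Real.pi = Real.pi * 1 := by ring
      _ ≤ Real.pi * (2 * B * |θ - round θ|) := mul_le_mul_of_nonneg_left h hp.le
      _ = _ := by ring

/-- the `j`-th code letter -/
noncomputable def code (B : ℕ) (θ : ℝ) (j : ℕ) : ℤ :=
  round ((B : ℝ) ^ (j + 1) * θ) - B * round ((B : ℝ) ^ j * θ)

lemma code_eq (B : ℕ) (θ : ℝ) (j : ℕ) : (code B θ j : ℝ) =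
    B * ((B : ℝ) ^ j * θ - round ((B : ℝ) ^ j * θ)) -
      ((B : ℝ) ^ (j + 1) * θ - round ((B : ℝ) ^ (j + 1) * θ)) := by
  unfold code
  push_cast
  ring

lemma code_bound (B : ℕ) (hB : 2 ≤ B) (θ : ℝ) (j : ℕ) : code B θ j ∈ Icc (-(B : ℤ)) B := by
  have h1 := abs_sub_round ((B : ℝ) ^ j * θ)
  have h2 := abs_sub_round ((B : ℝ) ^ (j + 1) * θ)
  have h3 := code_eq B θ j
  have hB' : (2 : ℝ) ≤ B := by exact_mod_cast hB
  rw [abs_le] at h1 h2
  rw [mem_Icc]
  constructor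
  · have : (-(B : ℝ)) ≤ code B θ j := by
      rw [h3]; nlinarith
    exact_mod_cast this
  · have : (code B θ j : ℝ) ≤ B := by
      rw [h3]; nlinarith
    exact_mod_cast this

lemma code_far (B : ℕ) (θ : ℝ) (j : ℕ) (h : code B θ j ≠ 0) :
    1 ≤ 2 * B * |(B : ℝ) ^ j * θ - round ((B : ℝ) ^ j * θ)| := by
  have h1 : (1 : ℝ) ≤ |(code B θ j : ℝ)| := by
    have : 1 ≤ |code B θ j| := Int.one_le_abs h
    exact_mod_cast this
  rw [code_eq] at h1
  have h2 := abs_sub_round ((B : ℝ) ^ (j + 1) * θ)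
  have h3 := abs_sub (B * ((B : ℝ) ^ j * θ - round ((B : ℝ) ^ j * θ)))
    ((B : ℝ) ^ (j + 1) * θ - round ((B : ℝ) ^ (j + 1) * θ))
  rw [abs_mul (B : ℝ), abs_of_nonneg (Nat.cast_nonneg B : (0 : ℝ) ≤ (B : ℝ))] at h3
  linarith

lemma code_sum (B : ℕ) (θ θ' : ℝ) (L : ℕ) (h : ∀ j < L, code B θ j = code B θ' j) :
    round ((B : ℝ) ^ L * θ) - (B : ℤ) ^ L * round θ =
      round ((B : ℝ) ^ L * θ') - (B : ℤ) ^ L * round θ' := by
  induction L with
  | zero => simp
  | succ L ih =>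
    have h1 := ih fun j hj => h j (by omega)
    have h2 := h L (by omega)
    unfold code at h2
    have h3 : (B : ℤ) ^ (L + 1) = (B : ℤ) ^ L * B := pow_succ _ _
    rw [h3]
    linear_combination h2 + (B : ℤ) * h1

lemma code_close (B : ℕ) (θ θ' : ℝ) (L : ℕ) (h : ∀ j < L, code B θ j = code B θ' j) :
    (B : ℝ) ^ L * |(θ - θ') - ((round θ - round θ' : ℤ) : ℝ)| ≤ 1 := by
  have h1 := code_sum B θ θ' L h
  have h2 : ((round ((B : ℝ) ^ L * θ) : ℤ) : ℝ) - (B : ℝ) ^ L * (round θ : ℤ) =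
      (round ((B : ℝ) ^ L * θ') : ℤ) - (B : ℝ) ^ L * (round θ' : ℤ) := by exact_mod_cast h1
  have h3 := abs_sub_round ((B : ℝ) ^ L * θ)
  have h4 := abs_sub_round ((B : ℝ) ^ L * θ')
  have h5 : (B : ℝ) ^ L * ((θ - θ') - ((round θ - round θ' : ℤ) : ℝ)) =
      ((B : ℝ) ^ L * θ - round ((B : ℝ) ^ L * θ)) - ((B : ℝ) ^ L * θ' - round ((B : ℝ) ^ L * θ')) := by
    push_cast
    linear_combination h2
  have h6 : |(B : ℝ) ^ L * ((θ - θ') - ((round θ - round θ' : ℤ) : ℝ))| =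
      (B : ℝ) ^ L * |(θ - θ') - ((round θ - round θ' : ℤ) : ℝ)| := by
    rw [abs_mul, abs_of_nonneg (by positivity : (0 : ℝ) ≤ (B : ℝ) ^ L)]
  rw [← h6, h5]
  have := abs_sub ((B : ℝ) ^ L * θ - round ((B : ℝ) ^ L * θ))
    ((B : ℝ) ^ L * θ' - round ((B : ℝ) ^ L * θ'))
  linarith

lemma code_zero (B : ℕ) (θ : ℝ) (L : ℕ) (h : ∀ j < L, code B θ j = 0) :
    (B : ℝ) ^ L * |θ - round θ| ≤ 1 := by
  have h0 : ∀ j, code B 0 j = 0 := by intro j; simp [code]
  have := code_close B θ 0 L (fun j hj => by rw [h j hj, h0 j])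
  simpa using this

/-- the reduced residues -/
def AA (q : ℕ) : Finset ℕ := (range q).filter fun a => Nat.Coprime a q

lemma mem_AA {q a : ℕ} : a ∈ AA q ↔ a < q ∧ Nat.Coprime a q := by
  unfold AA
  rw [mem_filter, mem_range]

/-- multiplication by `c` permutes the reduced fractions with denominator `q` -/
lemma sum_mul (q : ℕ) (hq : 1 < q) (c : ℕ) (hc : Nat.Coprime c q) (g : ℝ → ℝ)
    (hg : ∀ (x : ℝ) (n : ℤ), g (x + n) = g x) :
    ∑ a ∈ AA q, g (c * ((a : ℝ) / q)) = ∑ a ∈ AA q, g ((a : ℝ) / q) := by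
  have hmaps : Set.MapsTo (fun a => c * a % q) (AA q) (AA q) := by
    intro a ha
    rw [mem_coe, mem_AA] at ha ⊢
    refine ⟨Nat.mod_lt _ (by omega), ?_⟩
    have h1 : Nat.Coprime (c * a) q := hc.mul_left ha.2
    exact (Nat.mod_modEq (c * a) q).gcd_eq.trans h1
  have hinj : Set.InjOn (fun a => c * a % q) (AA q) := by
    intro a ha a' ha' h
    rw [mem_coe, mem_AA] at ha ha'
    have h1 : c * a ≡ c * a' [MOD q] := h
    have h2 : a ≡ a' [MOD q] := Nat.ModEq.cancel_left_of_coprime (by rw [Nat.gcd_comm]; exact hc) h1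
    rw [Nat.ModEq, Nat.mod_eq_of_lt ha.1, Nat.mod_eq_of_lt ha'.1] at h2
    exact h2
  refine sum_nbij (fun a => c * a % q) (fun a ha => hmaps ha) hinj
    (surjOn_of_injOn_of_card_le _ hmaps hinj le_rfl) ?_
  intro a _
  have h1 : (c : ℝ) * ((a : ℝ) / q) = ((c * a % q : ℕ) : ℝ) / q + ((c * a / q : ℕ) : ℤ) := by
    have h2 : (c : ℝ) * a = ((c * a % q : ℕ) : ℝ) + q * ((c * a / q : ℕ) : ℝ) := by
      exact_mod_cast (Nat.mod_add_div (c * a) q).symm
    have hq0 : (q : ℝ) ≠ 0 := by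
      have : (0 : ℝ) < q := by exact_mod_cast (by omega : 0 < q)
      exact this.ne'
    rw [Int.cast_natCast]
    field_simp
    linear_combination h2
  rw [h1, hg]

/-- the product over one block -/
noncomputable def blk (B L : ℕ) (θ : ℝ) : ℝ := ∏ j ∈ range L, cf ((B : ℝ) ^ j * θ)

lemma blk_nonneg (B L : ℕ) (θ : ℝ) : 0 ≤ blk B L θ := prod_nonneg fun _ _ => cf_nonneg _

lemma blk_le_one (B L : ℕ) (θ : ℝ) : blk B L θ ≤ 1 :=
  prod_le_one (fun _ _ => cf_nonneg _) fun _ _ => cf_le_one _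

lemma blk_add (B L M : ℕ) (θ : ℝ) : blk B (L + M) θ = blk B L θ * blk B M ((B : ℝ) ^ L * θ) := by
  unfold blk
  rw [prod_range_add]
  congr 1
  refine prod_congr rfl fun j _ => ?_
  congr 1
  rw [pow_add]; ring

lemma blk_int (B L : ℕ) (θ : ℝ) (n : ℤ) : blk B L (θ + n) = blk B L θ := by
  unfold blk
  refine prod_congr rfl fun j _ => ?_
  have : (B : ℝ) ^ j * (θ + n) = (B : ℝ) ^ j * θ + (((B : ℤ) ^ j * n : ℤ) : ℝ) := by
    push_cast; ring
  rw [this, cf_add_int]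

lemma blk_mul (B L K : ℕ) (θ : ℝ) :
    blk B (K * L) θ = ∏ i ∈ range K, blk B L ((B : ℝ) ^ (i * L) * θ) := by
  induction K with
  | zero => simp [blk]
  | succ K ih => rw [Nat.succ_mul, blk_add, ih, prod_range_succ]

lemma blk_anti (B : ℕ) {L N : ℕ} (h : L ≤ N) (θ : ℝ) : blk B N θ ≤ blk B L θ := by
  obtain ⟨M, rfl⟩ := Nat.exists_eq_add_of_le h
  rw [blk_add]
  exact mul_le_of_le_one_right (blk_nonneg _ _ _) (blk_le_one _ _ _)

/-- arithmetic and geometric mean -/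
lemma amgm (K : ℕ) (hK : 1 ≤ K) (x : ℕ → ℝ) (hx : ∀ i, 0 ≤ x i) :
    ∏ i ∈ range K, x i ≤ (∑ i ∈ range K, x i ^ K) / K := by
  have hK0 : (0 : ℝ) < K := by exact_mod_cast hK
  have h := Real.geom_mean_le_arith_mean_weighted (range K) (fun _ => 1 / (K : ℝ)) (fun i => x i ^ K)
    (fun _ _ => by positivity) (by
      rw [sum_const, card_range, nsmul_eq_mul]; field_simp) (fun i _ => pow_nonneg (hx i) _)
  have h1 : ∀ i, (x i ^ K) ^ (1 / (K : ℝ)) = x i := by
    intro i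
    rw [← Real.rpow_natCast, ← Real.rpow_mul (hx i), mul_one_div, div_self hK0.ne', Real.rpow_one]
  simp only [h1] at h
  refine h.trans (le_of_eq ?_)
  rw [← mul_sum]
  ring

/-- the weight of a letter -/
noncomputable def wl (x : ℝ) (v : ℤ) : ℝ := if v = 0 then 1 else x

lemma wl_nonneg {x : ℝ} (hx : 0 ≤ x) (v : ℤ) : 0 ≤ wl x v := by
  unfold wl; split_ifs <;> linarith

lemma blk_pow_le (B : ℕ) (hB : 2 ≤ B) (L K : ℕ) (θ : ℝ) :
    blk B L θ ^ K ≤ ∏ j : Fin L, wl (lam B ^ K) (code B θ j) := by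
  unfold blk
  rw [← Finset.prod_range (fun j => wl (lam B ^ K) (code B θ j)), ← prod_pow]
  refine prod_le_prod (fun j _ => pow_nonneg (cf_nonneg _) _) fun j _ => ?_
  unfold wl
  split_ifs with h
  · exact pow_le_one₀ (cf_nonneg _) (cf_le_one _)
  · exact pow_le_pow_left₀ (cf_nonneg _) (cf_far B hB _ (code_far B θ j h)) _

/-- the sum of the weights of all the words -/
lemma sum_words (B : ℕ) (L : ℕ) (x : ℝ) :
    ∑ m ∈ Fintype.piFinset (fun _ : Fin L => Icc (-(B : ℤ)) B), ∏ j : Fin L, wl x (m j) =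
      (1 + 2 * B * x) ^ L := by
  have h := (Finset.prod_univ_sum (fun _ : Fin L => Icc (-(B : ℤ)) B) (fun _ v => wl x v)).symm
  rw [h, prod_const, card_univ, Fintype.card_fin]
  congr 1
  have h0 : (0 : ℤ) ∈ Icc (-(B : ℤ)) B := by rw [mem_Icc]; omega
  rw [← add_sum_erase _ _ h0]
  have h1 : ∑ v ∈ (Icc (-(B : ℤ)) B).erase 0, wl x v = ∑ v ∈ (Icc (-(B : ℤ)) B).erase 0, x := by
    refine sum_congr rfl fun v hv => ?_
    unfold wl
    rw [if_neg (ne_of_mem_erase hv)]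
  rw [h1, sum_const, card_erase_of_mem h0, Int.card_Icc, nsmul_eq_mul]
  have h2 : ((B : ℤ) + 1 - -(B : ℤ)).toNat - 1 = 2 * B := by omega
  rw [h2]
  unfold wl
  rw [if_pos rfl]
  push_cast
  ring

/-- reduced fractions with small denominators are well spaced modulo one -/
lemma frac_eq {X q a q' a' : ℕ} (hq : 1 < q) (hq' : 1 < q') (hX : q ≤ X) (hX' : q' ≤ X) (ha : a ∈ AA q)
    (ha' : a' ∈ AA q') (Y : ℝ) (hY : (X : ℝ) ^ 2 < Y) (n : ℤ)
    (h : Y * |((a : ℝ) / q - (a' : ℝ) / q') - n| ≤ 1) : q = q' ∧ a = a' := by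
  rw [mem_AA] at ha ha'
  have hq0 : (0 : ℝ) < q := by exact_mod_cast (by omega : 0 < q)
  have hq0' : (0 : ℝ) < q' := by exact_mod_cast (by omega : 0 < q')
  have hXX : (q : ℝ) * q' ≤ (X : ℝ) ^ 2 := by
    have h1 : (q : ℝ) ≤ X := by exact_mod_cast hX
    have h2 : (q' : ℝ) ≤ X := by exact_mod_cast hX'
    nlinarith
  have e1 : ((a : ℝ) / q - (a' : ℝ) / q') - n =
      (((a : ℤ) * q' - a' * q - n * (q * q') : ℤ) : ℝ) / (q * q') := by
    push_cast
    field_simp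
  set m : ℤ := (a : ℤ) * q' - a' * q - n * (q * q') with hm
  have hm0 : m = 0 := by
    by_contra hne
    have h1 : (1 : ℝ) ≤ |(m : ℝ)| := by
      have : 1 ≤ |m| := Int.one_le_abs hne
      exact_mod_cast this
    rw [e1, abs_div, abs_of_pos (mul_pos hq0 hq0')] at h
    have h2 : (1 : ℝ) < Y * (|(m : ℝ)| / (q * q')) := by
      rw [← mul_div_assoc, lt_div_iff₀ (mul_pos hq0 hq0')]
      nlinarith [mul_pos hq0 hq0']
    linarith
  -- `a / q - a' / q' = n`
  have h3 : (a : ℤ) * q' = (a' + n * q') * q := by rw [hm] at hm0; linear_combination hm0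
  have hc : IsCoprime (a : ℤ) (q : ℤ) := Nat.isCoprime_iff_coprime.2 ha.2
  have hc' : IsCoprime ((a' : ℤ) + n * q') (q' : ℤ) :=
    (IsCoprime.add_mul_right_left (Nat.isCoprime_iff_coprime.2 ha'.2) n)
  have d1 : (q : ℤ) ∣ q' := (hc.symm).dvd_of_dvd_mul_left (Dvd.intro_left _ h3.symm)
  have d2 : (q' : ℤ) ∣ q := (hc'.symm).dvd_of_dvd_mul_left (Dvd.intro_left _ h3)
  have hqq : q = q' := Nat.dvd_antisymm (Int.natCast_dvd_natCast.1 d1) (Int.natCast_dvd_natCast.1 d2)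
  refine ⟨hqq, ?_⟩
  subst hqq
  have h4 : (a : ℤ) = a' + n * q := by
    have : (q : ℤ) ≠ 0 := by omega
    exact mul_right_cancel₀ this h3
  have h5 : n = 0 := by
    have h6 : (a : ℤ) < q := by exact_mod_cast ha.1
    have h7 : (a' : ℤ) < q := by exact_mod_cast ha'.1
    have h8 : (0 : ℤ) ≤ a := by positivity
    have h9 : (0 : ℤ) ≤ a' := by positivity
    have hq1 : (0 : ℤ) < q := by omega
    by_contra hn
    rcases lt_or_gt_of_ne hn with h | h
    · nlinarith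
    · nlinarith
  rw [h5, zero_mul, add_zero] at h4
  exact_mod_cast h4

/-- **The sum over the fractions.** -/
theorem sum_blk (B : ℕ) (hB : 2 ≤ B) (Q : Finset ℕ) (X : ℕ)
    (hQ : ∀ q ∈ Q, 1 < q ∧ Nat.Coprime B q ∧ q ≤ X) (L K N : ℕ) (hL : (X : ℝ) ^ 2 < (B : ℝ) ^ L)
    (hK : 1 ≤ K) (hN : K * L ≤ N) :
    ∑ q ∈ Q, ∑ a ∈ AA q, blk B N ((a : ℝ) / q) ≤ (1 + 2 * B * lam B ^ K) ^ L - 1 := by
  have hK0 : (0 : ℝ) < K := by exact_mod_cast hK
  have hB0 : (0 : ℝ) < B := by exact_mod_cast (by omega : 0 < B)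
  -- one block
  have h1 : ∀ q ∈ Q, ∑ a ∈ AA q, blk B N ((a : ℝ) / q) ≤ ∑ a ∈ AA q, blk B L ((a : ℝ) / q) ^ K := by
    intro q hq
    obtain ⟨hq1, hq2, -⟩ := hQ q hq
    calc ∑ a ∈ AA q, blk B N ((a : ℝ) / q)
        ≤ ∑ a ∈ AA q, (∑ i ∈ range K, blk B L ((B : ℝ) ^ (i * L) * ((a : ℝ) / q)) ^ K) / K := by
          refine sum_le_sum fun a _ => ?_
          refine (blk_anti B hN _).trans ?_
          rw [blk_mul]
          exact amgm K hK _ fun i => blk_nonneg _ _ _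
      _ = (∑ i ∈ range K, ∑ a ∈ AA q, blk B L (((B ^ (i * L) : ℕ) : ℝ) * ((a : ℝ) / q)) ^ K) / K := by
          rw [← sum_div, sum_comm]
          push_cast
          rfl
      _ = (∑ i ∈ range K, ∑ a ∈ AA q, blk B L ((a : ℝ) / q) ^ K) / K := by
          congr 1
          refine sum_congr rfl fun i _ => ?_
          exact sum_mul q hq1 (B ^ (i * L)) (Nat.Coprime.pow_left _ hq2)
            (fun x => blk B L x ^ K) (fun x n => by rw [blk_int])
      _ = ∑ a ∈ AA q, blk B L ((a : ℝ) / q) ^ K := by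
          rw [sum_const, card_range, nsmul_eq_mul]
          field_simp
  refine (sum_le_sum h1).trans ?_
  -- the codes
  set T : Finset (Σ _ : ℕ, ℕ) := Q.sigma fun q => AA q with hT
  have h2 : ∑ q ∈ Q, ∑ a ∈ AA q, blk B L ((a : ℝ) / q) ^ K =
      ∑ t ∈ T, blk B L ((t.2 : ℝ) / t.1) ^ K := by
    rw [hT, sum_sigma]
  rw [h2]
  set cd : (Σ _ : ℕ, ℕ) → (Fin L → ℤ) := fun t j => code B ((t.2 : ℝ) / t.1) j with hcd
  set W : Finset (Fin L → ℤ) := Fintype.piFinset (fun _ : Fin L => Icc (-(B : ℤ)) B) with hW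
  have hx0 : 0 ≤ lam B ^ K := pow_nonneg (lam_nonneg B hB) _
  have hinj : Set.InjOn cd T := by
    rintro ⟨q, a⟩ ht ⟨q', a'⟩ ht' h
    rw [mem_coe, hT, mem_sigma] at ht ht'
    obtain ⟨hq1, -, hq3⟩ := hQ q ht.1
    obtain ⟨hq1', -, hq3'⟩ := hQ q' ht'.1
    have h3 : ∀ j < L, code B ((a : ℝ) / q) j = code B ((a' : ℝ) / q') j := fun j hj =>
      congrFun h ⟨j, hj⟩
    obtain ⟨e1, e2⟩ := frac_eq hq1 hq1' hq3 hq3' ht.2 ht'.2 ((B : ℝ) ^ L) hL _ (code_close B _ _ L h3)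
    subst e1
    subst e2
    rfl
  have hmem : ∀ t ∈ T, cd t ∈ W.erase 0 := by
    rintro ⟨q, a⟩ ht
    rw [hT, mem_sigma] at ht
    obtain ⟨hq1, -, hq3⟩ := hQ q ht.1
    rw [mem_erase]
    refine ⟨?_, ?_⟩
    · intro h0
      have h3 : ∀ j < L, code B ((a : ℝ) / q) j = 0 := fun j hj => congrFun h0 ⟨j, hj⟩
      have h4 := code_zero B _ L h3
      have ha := mem_AA.1 ht.2
      have hq0 : (0 : ℝ) < q := by exact_mod_cast (by omega : 0 < q)
      -- the distance to the nearest integer is at least `1 / q`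
      have h5 : ((a : ℝ) / q) - round ((a : ℝ) / q) =
          (((a : ℤ) - round ((a : ℝ) / q) * q : ℤ) : ℝ) / q := by
        push_cast
        field_simp
      have h6 : (a : ℤ) - round ((a : ℝ) / q) * q ≠ 0 := by
        intro h7
        have h8 : (q : ℤ) ∣ a := ⟨round ((a : ℝ) / q), by linear_combination h7⟩
        have h9 : q ∣ a := Int.natCast_dvd_natCast.1 h8
        have h10 : q = 1 := Nat.eq_one_of_dvd_coprimes ha.2.symm dvd_rfl h9
        omega
      have h7 : (1 : ℝ) ≤ |(((a : ℤ) - round ((a : ℝ) / q) * q : ℤ) : ℝ)| := by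
        have : 1 ≤ |(a : ℤ) - round ((a : ℝ) / q) * q| := Int.one_le_abs h6
        exact_mod_cast this
      rw [h5, abs_div, abs_of_pos hq0] at h4
      have h8 : (1 : ℝ) < (B : ℝ) ^ L * (|(((a : ℤ) - round ((a : ℝ) / q) * q : ℤ) : ℝ)| / q) := by
        rw [← mul_div_assoc, lt_div_iff₀ hq0]
        have h9 : (q : ℝ) ≤ X := by exact_mod_cast hq3
        have h10 : (1 : ℝ) ≤ q := by exact_mod_cast (by omega : 1 ≤ q)
        nlinarith
      linarith
    · rw [hW, Fintype.mem_piFinset]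
      exact fun j => code_bound B hB _ _
  calc ∑ t ∈ T, blk B L ((t.2 : ℝ) / t.1) ^ K
      ≤ ∑ t ∈ T, ∏ j : Fin L, wl (lam B ^ K) (cd t j) :=
        sum_le_sum fun t _ => blk_pow_le B hB L K _
    _ = ∑ m ∈ T.image cd, ∏ j : Fin L, wl (lam B ^ K) (m j) := by
        rw [sum_image hinj]
    _ ≤ ∑ m ∈ W.erase 0, ∏ j : Fin L, wl (lam B ^ K) (m j) := by
        refine sum_le_sum_of_subset_of_nonneg ?_ fun m _ _ => prod_nonneg fun j _ => wl_nonneg hx0 _
        intro m hm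
        obtain ⟨t, ht, rfl⟩ := mem_image.1 hm
        exact hmem t ht
    _ = (1 + 2 * B * lam B ^ K) ^ L - 1 := by
        have h0 : (0 : Fin L → ℤ) ∈ W := by
          rw [hW, Fintype.mem_piFinset]
          intro j
          rw [mem_Icc]
          simp
        have h3 := add_sum_erase W (fun m => ∏ j : Fin L, wl (lam B ^ K) (m j)) h0
        rw [hW, sum_words] at h3
        have h4 : ∏ j : Fin L, wl (lam B ^ K) ((0 : Fin L → ℤ) j) = 1 := by
          refine prod_eq_one fun j _ => ?_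
          unfold wl
          rw [Pi.zero_apply, if_pos rfl]
        rw [h4, ← hW] at h3
        linarith

end Pool.Agent.D0H92.AG
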