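import Pool.Agent.H398R2.RK.Surv2

set_option autoImplicit false

/-!
# Rankin's choice of classes with the parameters of this paper
-/

namespace Pool.Agent.D0H92.AG

open Finset Filter

/-- Rankin's function of the logarithm: `t log t log log log t / (log log t)^2` -/
noncomputable def Rk (t : ℝ) : ℝ :=
  t * Real.log t * Real.log (Real.log (Real.log t)) / (Real.log (Real.log t)) ^ 2

lemma log_half {u : ℝ} (hu : 4 ≤ u) (T : ℝ) (hT : 0 < T) (h : u = Real.log T) : u / 2 ≤ Real.log (T / 2) := by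
  rw [Real.log_div hT.ne' (by norm_num), ← h]
  have := Real.log_two_lt_d9
  linarith

/-- the real inequalities behind the choice -/
lemma par_real (C δ κ N T u v y a la lla L E : ℝ) (hC : 0 < C) (hδ : 0 < δ) (hN : 0 < N) (hT : 8 ≤ T)
    (hu : 4 ≤ u) (hv : 4 ≤ v) (hvu : v ≤ u) (h1 : κ ≤ δ / (32 * C)) (h2 : κ ≤ δ / 32)
    (hy : δ * N / (2 * T) ≤ y) (ha : T / 2 ≤ a) (hla : la ≤ u) (hla0 : 0 ≤ la) (hlla : v / 2 ≤ lla)
    (hL : L ≤ 2 * (κ * (N * T * v / u ^ 2)) + E) (hL0 : 0 ≤ L) (hE : E ≤ 2 * δ * N / T)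
    (huT : 32 * C * u ^ 2 ≤ T ^ 2) :
    L ≤ y * a ^ 2 ∧ C * L * la ^ 2 / (a ^ 2 * lla) ≤ δ * N / T := by
  have hT0 : 0 < T := by linarith
  have hu0 : 0 < u := by linarith
  have hv0 : 0 < v := by linarith
  have ha0 : 0 < a := by linarith
  constructor
  · have e1 : δ * N / (2 * T) * (T / 2) ^ 2 ≤ y * a ^ 2 := by
      have h0 : 0 ≤ δ * N / (2 * T) := by positivity
      exact mul_le_mul hy (pow_le_pow_left₀ (by positivity) ha 2) (by positivity) (h0.trans hy)
    have e2 : δ * N / (2 * T) * (T / 2) ^ 2 = δ * N * T / 8 := by field_simp; norm_num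
    have e3 : κ * (N * T * v / u ^ 2) ≤ δ * N * T / 32 := by
      have h3 : N * T * v / u ^ 2 ≤ N * T := by
        rw [div_le_iff₀ (by positivity)]
        apply mul_le_mul_of_nonneg_left _ (by positivity)
        nlinarith
      calc κ * (N * T * v / u ^ 2) ≤ δ / 32 * (N * T) :=
            mul_le_mul h2 h3 (by positivity) (by positivity)
        _ = _ := by ring
    have e4 : 2 * δ * N / T ≤ δ * N * T / 32 := by
      rw [div_le_div_iff₀ hT0 (by norm_num)]
      have h5 : 64 ≤ T * T := by nlinarith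
      have h6 : 0 < δ * N := by positivity
      nlinarith
    linarith
  · have e1 : C * L * la ^ 2 / (a ^ 2 * lla) ≤ C * L * (8 * u ^ 2 / (T ^ 2 * v)) := by
      rw [mul_div_assoc]
      refine mul_le_mul_of_nonneg_left ?_ (by positivity)
      have h3 : la ^ 2 ≤ u ^ 2 := pow_le_pow_left₀ hla0 hla 2
      have h4 : T ^ 2 * v / 8 ≤ a ^ 2 * lla := by
        calc T ^ 2 * v / 8 = (T / 2) ^ 2 * (v / 2) := by ring
          _ ≤ a ^ 2 * lla := mul_le_mul (pow_le_pow_left₀ (by positivity) ha 2) hlla (by positivity) (by positivity)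
      calc la ^ 2 / (a ^ 2 * lla) ≤ u ^ 2 / (T ^ 2 * v / 8) :=
            div_le_div₀ (by positivity) h3 (by positivity) h4
        _ = 8 * u ^ 2 / (T ^ 2 * v) := by field_simp
    refine e1.trans ?_
    have e2 : C * L * (8 * u ^ 2 / (T ^ 2 * v)) ≤
        C * (2 * (κ * (N * T * v / u ^ 2)) + E) * (8 * u ^ 2 / (T ^ 2 * v)) := by
      refine mul_le_mul_of_nonneg_right (mul_le_mul_of_nonneg_left hL hC.le) (by positivity)
    refine e2.trans ?_
    have e3 : C * (2 * (κ * (N * T * v / u ^ 2)) + E) * (8 * u ^ 2 / (T ^ 2 * v)) =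
        16 * C * κ * N / T + E * (8 * C * u ^ 2 / (T ^ 2 * v)) := by
      field_simp
      ring
    rw [e3]
    have e4 : 16 * C * κ * N / T ≤ δ * N / T / 2 := by
      rw [le_div_iff₀ (by positivity)] at h1
      rw [div_div, div_le_div_iff₀ hT0 (by positivity)]
      have : κ * (32 * C) * (N * T) ≤ δ * (N * T) := mul_le_mul_of_nonneg_right h1 (by positivity)
      nlinarith
    have e5 : E * (8 * C * u ^ 2 / (T ^ 2 * v)) ≤ δ * N / T / 2 := by
      have h3 : 8 * C * u ^ 2 / (T ^ 2 * v) ≤ 1 / 16 := by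
        rw [div_le_div_iff₀ (by positivity) (by norm_num)]
        nlinarith [mul_le_mul huT hv (by norm_num : (0 : ℝ) ≤ 4) (by positivity : (0 : ℝ) ≤ T ^ 2)]
      have h4 : (0 : ℝ) ≤ 8 * C * u ^ 2 / (T ^ 2 * v) := by positivity
      have h5 : 0 ≤ 2 * δ * N / T := by positivity
      calc E * (8 * C * u ^ 2 / (T ^ 2 * v)) ≤ (2 * δ * N / T) * (8 * C * u ^ 2 / (T ^ 2 * v)) :=
            mul_le_mul_of_nonneg_right hE h4
        _ ≤ (2 * δ * N / T) * (1 / 16) := mul_le_mul_of_nonneg_left h3 h5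
        _ = δ * N / T / 8 := by ring
        _ ≤ δ * N / T / 2 := by
            have : 0 ≤ δ * N / T := by positivity
            linarith
    linarith

open Classical in
/-- **The classes.** -/
theorem par (δ : ℝ) (hδ : 0 < δ) (D : ℕ) : ∃ κ : ℝ, 0 < κ ∧ ∀ᶠ N : ℕ in atTop,
    ∃ (b : ℕ → ℕ) (L : ℕ), 2 * ⌊κ * Rk N⌋₊ + D + 1 ≤ L ∧
      (((Icc 1 L).filter fun k => ∀ q : ℕ, q.Prime → q ≤ ⌊δ * N / Real.log N⌋₊ → ¬ k ≡ b q [MOD q]).card : ℝ) ≤
        δ * N / Real.log N := by
  obtain ⟨C, hC, y₀, hS⟩ := Pool.Agent.H398R2.RK.survivors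
  obtain ⟨κ, hκdef⟩ : ∃ κ : ℝ, κ = min (δ / (32 * C)) (δ / 32) := ⟨_, rfl⟩
  have hκ : 0 < κ := by rw [hκdef]; exact lt_min (by positivity) (by positivity)
  have h1 : κ ≤ δ / (32 * C) := by rw [hκdef]; exact min_le_left _ _
  have h2 : κ ≤ δ / 32 := by rw [hκdef]; exact min_le_right _ _
  refine ⟨κ, hκ, ?_⟩
  have hcast : Tendsto (fun N : ℕ => (N : ℝ)) atTop atTop := tendsto_natCast_atTop_atTop
  have hlog : Tendsto (fun N : ℕ => Real.log N) atTop atTop := Real.tendsto_log_atTop.comp hcast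
  have hlog2 : Tendsto (fun N : ℕ => Real.log (Real.log N)) atTop atTop := Real.tendsto_log_atTop.comp hlog
  have hlog3 : Tendsto (fun N : ℕ => Real.log (Real.log (Real.log N))) atTop atTop :=
    Real.tendsto_log_atTop.comp hlog2
  have hdiv : Tendsto (fun N : ℕ => (N : ℝ) / Real.log N) atTop atTop := by
    have h1 : Tendsto (fun x : ℝ => x / Real.log x) atTop atTop := by
      have := Real.isLittleO_log_id_atTop
      have h2 := this.tendsto_div_nhds_zero
      have h3 : Tendsto (fun x : ℝ => (Real.log x / x)⁻¹) atTop atTop := by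
        apply Tendsto.inv_tendsto_nhdsGT_zero
        rw [tendsto_nhdsWithin_iff]
        refine ⟨h2, ?_⟩
        filter_upwards [eventually_gt_atTop (1 : ℝ)] with x hx
        exact div_pos (Real.log_pos hx) (by linarith)
      refine h3.congr' ?_
      filter_upwards with x
      rw [inv_div]
    exact h1.comp hcast
  have hsmall : ∀ ε : ℝ, 0 < ε → ∀ᶠ N : ℕ in atTop, Real.log (Real.log N) ≤ ε * Real.log N := by
    intro ε hε
    have h := (Real.isLittleO_log_id_atTop.def hε)
    filter_upwards [hlog.eventually h, hlog2.eventually_ge_atTop 0, hlog.eventually_ge_atTop 0] with N h3 h4 h5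
    rw [id, Real.norm_eq_abs, Real.norm_eq_abs, abs_of_nonneg h4, abs_of_nonneg h5] at h3
    exact h3
  filter_upwards [hlog.eventually_ge_atTop 8, hlog2.eventually_ge_atTop 4, hlog3.eventually_ge_atTop 4,
    hdiv.eventually_ge_atTop (2 * (y₀ + D + 4) / δ), hdiv.eventually_ge_atTop (2 / δ),
    hsmall (1 / 4) (by norm_num), hsmall (1 / Real.sqrt (32 * C)) (by positivity),
    hlog.eventually_ge_atTop (-(4 * Real.log (δ / 2))), hdiv.eventually_ge_atTop ((D + 1) / δ),
    hlog.eventually_ge_atTop δ, eventually_ge_atTop 1] with N hT hu hv hN1 hN1' hs1 hs2 hs3 hN2 hTδ hN0'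
  set T := Real.log N with hTdef
  set u := Real.log T with hudef
  set v := Real.log u with hvdef
  have hT0 : 0 < T := by linarith
  have hu0 : 0 < u := by linarith
  have hN0 : (0 : ℝ) < N := by exact_mod_cast (by omega : 0 < N)
  have hvu : v ≤ u := by
    have := Real.log_le_sub_one_of_pos hu0
    linarith
  set Y := ⌊δ * N / T⌋₊ with hYdef
  have hY1 : (Y : ℝ) ≤ δ * N / T := Nat.floor_le (by positivity)
  have hY2 : δ * N / T < Y + 1 := Nat.lt_floor_add_one _
  have hY3 : 2 * (y₀ + D + 4) ≤ δ * N / T := by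
    have := (div_le_iff₀ hδ).1 hN1
    calc 2 * (y₀ + D + 4) ≤ (N : ℝ) / T * δ := this
      _ = _ := by ring
  have hY3' : 2 ≤ δ * N / T := by
    have := (div_le_iff₀ hδ).1 hN1'
    calc 2 ≤ (N : ℝ) / T * δ := this
      _ = _ := by ring
  have hY4 : (D : ℝ) + 1 ≤ δ * N / T := by
    have := (div_le_iff₀ hδ).1 hN2
    calc (D : ℝ) + 1 ≤ (N : ℝ) / T * δ := this
      _ = _ := by ring
  have hY5 : δ * N / (2 * T) ≤ Y := by
    have : δ * N / (2 * T) = δ * N / T / 2 := by field_simp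
    rw [this]
    linarith
  have hYpos : (0 : ℝ) < Y := lt_of_lt_of_le (by positivity) hY5
  have hY6 : y₀ ≤ Y := by
    have : δ * N / (2 * T) = δ * N / T / 2 := by field_simp
    have hD0 : (0 : ℝ) ≤ D := Nat.cast_nonneg D
    linarith
  -- the logarithm of `Y`
  have ha1 : T / 2 ≤ Real.log Y := by
    have h3 : Real.log (δ * N / (2 * T)) ≤ Real.log Y := Real.log_le_log (by positivity) hY5
    have h4 : Real.log (δ * N / (2 * T)) = Real.log (δ / 2) + T - u := by
      have : δ * N / (2 * T) = δ / 2 * N / T := by field_simp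
      rw [this, Real.log_div (by positivity) hT0.ne', Real.log_mul (by positivity) hN0.ne']
    linarith
  have ha0 : 0 < Real.log Y := by linarith
  -- upper bound for the second logarithm
  set L := 2 * ⌊κ * Rk N⌋₊ + D + 1 + Y with hLdef
  have hLY : (Y : ℝ) ≤ L := by exact_mod_cast (by omega : Y ≤ L)
  have hRk : Rk N = N * T * v / u ^ 2 := rfl
  have hH : (⌊κ * Rk N⌋₊ : ℝ) ≤ κ * (N * T * v / u ^ 2) := by
    rw [← hRk]
    apply Nat.floor_le
    rw [hRk]
    positivity
  have hLle : (L : ℝ) ≤ 2 * (κ * (N * T * v / u ^ 2)) + (D + 1 + Y) := by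
    rw [hLdef]
    push_cast
    linarith
  have hE : ((D : ℝ) + 1 + Y) ≤ 2 * δ * N / T := by
    have : 2 * δ * N / T = δ * N / T + δ * N / T := by ring
    rw [this]
    linarith
  have huT : 32 * C * u ^ 2 ≤ T ^ 2 := by
    have h3 : Real.sqrt (32 * C) * u ≤ T := by
      have h4 : 0 < Real.sqrt (32 * C) := Real.sqrt_pos.2 (by positivity)
      calc Real.sqrt (32 * C) * u ≤ Real.sqrt (32 * C) * (1 / Real.sqrt (32 * C) * T) :=
            mul_le_mul_of_nonneg_left hs2 h4.le
        _ = T := by field_simp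
    have h4 := pow_le_pow_left₀ (by positivity) h3 2
    rw [mul_pow, Real.sq_sqrt (by positivity)] at h4
    exact h4
  have hδ1 : (Y : ℝ) ≤ N := by
    refine hY1.trans ?_
    rw [div_le_iff₀ hT0]
    nlinarith
  have ha2 : Real.log Y ≤ T := Real.log_le_log hYpos hδ1
  have hla : Real.log (Real.log Y) ≤ u := Real.log_le_log ha0 ha2
  have hla' : u / 2 ≤ Real.log (Real.log Y) :=
    (log_half hu T hT0 hudef).trans (Real.log_le_log (by positivity) ha1)
  have hlla : v / 2 ≤ Real.log (Real.log (Real.log Y)) :=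
    (log_half hv u hu0 hvdef).trans (Real.log_le_log (by positivity) hla')
  obtain ⟨r1, r2⟩ := par_real C δ κ N T u v Y (Real.log Y) (Real.log (Real.log Y))
    (Real.log (Real.log (Real.log Y))) L (D + 1 + Y) hC hδ hN0 hT hu hv hvu h1 h2 hY5 ha1 hla
    (by linarith) hlla hLle (by positivity) hE huT
  obtain ⟨b, -, hb⟩ := hS Y hY6 L hLY r1
  refine ⟨b, L, by omega, ?_⟩
  refine le_trans (le_of_eq ?_) (hb.trans r2)
  congr 1
  congr 1
  ext k
  rw [mem_filter, mem_filter]
  simp only [Nat.cast_le]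

end Pool.Agent.D0H92.AG
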